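import Pool.Agent.U916.GN.Pin

/-!
# A determinant divisible by a large number

For points with `x ^ 2 + d y ^ 2 ≡ 0 (mod M)` and radicands `d` in one residue class modulo `R`.
-/

set_option autoImplicit false

namespace Pool.Agent.U916.GQ

open Polynomial Pool.Agent.W223.HZ

/-- polynomials which approximate a square root of `- (d₀ + X)` modulo powers of `P` -/
noncomputable def HH (s u d₀ : ℤ) : ℕ → ℤ[X]
  | 0 => C s
  | a + 1 => HH s u d₀ a + C u * (HH s u d₀ a ^ 2 + (C d₀ + X))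

theorem hens {s u d₀ P τ : ℤ} (hτ : P ∣ τ) (hs : P ∣ s ^ 2 + d₀) (hu : P ∣ 1 + 2 * s * u) (a : ℕ) :
    P ^ (a + 1) ∣ (HH s u d₀ a).eval τ ^ 2 + (d₀ + τ) ∧ P ∣ (HH s u d₀ a).eval τ - s := by
  induction a with
  | zero =>
    refine ⟨?_, ?_⟩
    · rw [zero_add, pow_one, HH, eval_C]
      have : s ^ 2 + (d₀ + τ) = (s ^ 2 + d₀) + τ := by ring
      rw [this]
      exact dvd_add hs hτ
    · rw [HH, eval_C, sub_self]
      exact dvd_zero _
  | succ a ih =>
    obtain ⟨h1, h2⟩ := ih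
    obtain ⟨h, hh⟩ : ∃ h, h = (HH s u d₀ a).eval τ := ⟨_, rfl⟩
    rw [← hh] at h1 h2
    obtain ⟨e, he⟩ : ∃ e, e = h ^ 2 + (d₀ + τ) := ⟨_, rfl⟩
    have hev : (HH s u d₀ (a + 1)).eval τ = h + u * e := by
      rw [HH, eval_add, eval_mul, eval_add, eval_pow, eval_add, eval_C, eval_C, eval_X, ← hh, ← he]
    rw [← he] at h1
    have h3 : P ∣ 1 + 2 * h * u := by
      have : 1 + 2 * h * u = (1 + 2 * s * u) + (h - s) * (2 * u) := by ring
      rw [this]
      exact dvd_add hu (Dvd.dvd.mul_right h2 _)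
    have hPe : P ∣ e := (dvd_pow_self P (by omega)).trans h1
    refine ⟨?_, ?_⟩
    · rw [hev]
      have : (h + u * e) ^ 2 + (d₀ + τ) = e * (1 + 2 * h * u) + u ^ 2 * (e * e) := by
        rw [he]; ring
      rw [this]
      apply dvd_add
      · rw [pow_succ]
        exact mul_dvd_mul h1 h3
      · apply Dvd.dvd.mul_left
        rw [pow_succ]
        exact mul_dvd_mul h1 hPe
    · rw [hev]
      have : h + u * e - s = (h - s) + u * e := by ring
      rw [this]
      exact dvd_add h2 (Dvd.dvd.mul_left hPe _)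

/-- the congruence between the coordinates of a point -/
theorem point_congr {s u d₀ P M τ x y : ℤ} {a : ℕ} (hτ : P ∣ τ) (hs : P ∣ s ^ 2 + d₀)
    (hu : P ∣ 1 + 2 * s * u) (hM : M ∣ P ^ (a + 1)) (hxy : P ∣ x - s * y)
    (hcop : IsCoprime (2 * s * y) P) (hN : M ∣ x ^ 2 + (d₀ + τ) * y ^ 2) :
    M ∣ x - (HH s u d₀ a).eval τ * y := by
  obtain ⟨h1, h2⟩ := hens hτ hs hu a
  obtain ⟨h, hh⟩ : ∃ h, h = (HH s u d₀ a).eval τ := ⟨_, rfl⟩
  rw [← hh] at h1 h2 ⊢
  have h3 : M ∣ (x - h * y) * (x + h * y) := by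
    have : (x - h * y) * (x + h * y) = (x ^ 2 + (d₀ + τ) * y ^ 2) - y ^ 2 * (h ^ 2 + (d₀ + τ)) := by
      ring
    rw [this]
    exact dvd_sub hN (Dvd.dvd.mul_left (hM.trans h1) _)
  have h4 : IsCoprime M (x + h * y) := by
    have h5 : P ∣ (x + h * y) - 2 * s * y := by
      have : (x + h * y) - 2 * s * y = (x - s * y) + (h - s) * y := by ring
      rw [this]
      exact dvd_add hxy (Dvd.dvd.mul_right h2 _)
    obtain ⟨c, hc⟩ := h5
    have h6 : IsCoprime (x + h * y) P := by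
      have : x + h * y = 2 * s * y + P * c := by linear_combination hc
      rw [this]
      exact IsCoprime.add_mul_left_left hcop c
    have h7 : IsCoprime (x + h * y) (P ^ (a + 1)) := h6.pow_right
    exact (IsCoprime.of_isCoprime_of_dvd_right h7 hM).symm
  exact h4.dvd_of_dvd_mul_right h3

/-- splitting the value of a polynomial -/
theorem eval_split (p : ℤ[X]) (k : ℕ) (R σ : ℤ) : ∃ c : ℤ,
    p.eval (R * σ) = ∑ n ∈ Finset.range k, p.coeff n * (R ^ n * σ ^ n) + R ^ k * c := by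
  have h1 : p.natDegree < k + (p.natDegree + 1) := by omega
  rw [eval_eq_sum_range' h1, Finset.sum_range_add]
  refine ⟨∑ x ∈ Finset.range (p.natDegree + 1), p.coeff (k + x) * (R ^ x * σ ^ (k + x)), ?_⟩
  congr 1
  · apply Finset.sum_congr rfl
    intro n _
    rw [mul_pow]
  · rw [Finset.mul_sum]
    apply Finset.sum_congr rfl
    intro n _
    rw [mul_pow, pow_add R]
    ring

/-- the coefficients of the column operation -/
def Cm (m : ℕ) (R : ℤ) (h : ℕ → ℤ) : Matrix (Fin m) (Fin m) ℤ :=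
  Matrix.of fun l j => if (j : ℕ) ≤ l then h (l - j) * R ^ ((l : ℕ) - j) else 0

theorem sum_col_aux (k e : ℕ) (R : ℤ) (h : ℕ → ℤ) (σ : ℤ) :
    ∑ l ∈ Finset.range (k + e), σ ^ l * (if k ≤ l then h (l - k) * R ^ (l - k) else 0) =
      σ ^ k * ∑ n ∈ Finset.range e, h n * (R ^ n * σ ^ n) := by
  rw [Finset.sum_range_add]
  have h3 : ∑ x ∈ Finset.range k, σ ^ x * (if k ≤ x then h (x - k) * R ^ (x - k) else 0) = 0 := by
    apply Finset.sum_eq_zero
    intro x hx
    rw [Finset.mem_range] at hx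
    rw [if_neg (by omega), mul_zero]
  rw [h3, zero_add, Finset.mul_sum]
  apply Finset.sum_congr rfl
  intro n _
  rw [if_pos (by omega), Nat.add_sub_cancel_left, pow_add]
  ring

theorem sum_col (m : ℕ) (R : ℤ) (h : ℕ → ℤ) (σ : ℤ) (j : Fin m) :
    ∑ l : Fin m, σ ^ (l : ℕ) * Cm m R h l j =
      σ ^ (j : ℕ) * ∑ n ∈ Finset.range (m - j), h n * (R ^ n * σ ^ n) := by
  have h1 : ∑ l : Fin m, σ ^ (l : ℕ) * Cm m R h l j =
      ∑ l ∈ Finset.range m, σ ^ l * (if (j : ℕ) ≤ l then h (l - j) * R ^ (l - j) else 0) := by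
    rw [← Fin.sum_univ_eq_sum_range (fun l => σ ^ l * (if (j : ℕ) ≤ l then h (l - j) * R ^ (l - j) else 0)) m]
    rfl
  rw [h1, ← sum_col_aux]
  have h2 : (j : ℕ) + (m - j) = m := by omega
  rw [h2]

/-- **the divisor of the determinant** -/
theorem det_dvd (m : ℕ) (M R : ℤ) (h : ℤ[X]) (x y σ : Fin m ⊕ Fin m → ℤ)
    (hx : ∀ i, M ∣ x i - h.eval (R * σ i) * y i) :
    (∏ j : Fin m, (Int.gcd M (R ^ (m - j)) : ℤ)) ∣ (Mat m x y σ).det := by
  classical
  obtain ⟨U, hU⟩ : ∃ U : Matrix (Fin m ⊕ Fin m) (Fin m ⊕ Fin m) ℤ,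
      U = Matrix.fromBlocks 1 0 (-(Cm m R h.coeff)) 1 := ⟨_, rfl⟩
  have hdetU : U.det = 1 := by
    rw [hU, Matrix.det_fromBlocks_zero₁₂, Matrix.det_one, one_mul]
  have hl : ∀ i (j : Fin m), (Mat m x y σ * U) i (Sum.inl j) =
      x i * σ i ^ (j : ℕ) - y i * (σ i ^ (j : ℕ) *
        ∑ n ∈ Finset.range (m - j), h.coeff n * (R ^ n * σ i ^ n)) := by
    intro i j
    rw [← sum_col, Matrix.mul_apply, Fintype.sum_sum_type, hU]
    simp only [Matrix.fromBlocks_apply₁₁, Matrix.fromBlocks_apply₂₁, Mat, Matrix.of_apply,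
      Sum.elim_inl, Sum.elim_inr, Matrix.neg_apply]
    rw [Finset.mul_sum, sub_eq_add_neg, ← Finset.sum_neg_distrib]
    congr 1
    · rw [Finset.sum_eq_single j]
      · rw [Matrix.one_apply_eq, mul_one]
      · intro b _ hb
        rw [Matrix.one_apply_ne hb, mul_zero]
      · intro hj
        exact absurd (Finset.mem_univ j) hj
    · apply Finset.sum_congr rfl
      intro l _
      ring
  have hr : ∀ i (j : Fin m), (Mat m x y σ * U) i (Sum.inr j) = y i * σ i ^ (j : ℕ) := by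
    intro i j
    rw [Matrix.mul_apply, Fintype.sum_sum_type, hU]
    simp only [Matrix.fromBlocks_apply₁₂, Matrix.fromBlocks_apply₂₂, Mat, Matrix.of_apply,
      Sum.elim_inl, Sum.elim_inr, Matrix.zero_apply, mul_zero, Finset.sum_const_zero, zero_add]
    rw [Finset.sum_eq_single j]
    · rw [Matrix.one_apply_eq, mul_one]
    · intro b _ hb
      rw [Matrix.one_apply_ne hb, mul_zero]
    · intro hj
      exact absurd (Finset.mem_univ j) hj
  have hd : ∀ i (j : Fin m), (Int.gcd M (R ^ (m - j)) : ℤ) ∣ (Mat m x y σ * U) i (Sum.inl j) := by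
    intro i j
    rw [hl]
    obtain ⟨c, hc⟩ := eval_split h (m - j) R (σ i)
    obtain ⟨S, hS⟩ : ∃ S : ℤ, S = ∑ n ∈ Finset.range (m - j), h.coeff n * (R ^ n * σ i ^ n) :=
      ⟨_, rfl⟩
    rw [← hS] at hc ⊢
    have e : x i * σ i ^ (j : ℕ) - y i * (σ i ^ (j : ℕ) * S) =
        (x i - h.eval (R * σ i) * y i) * σ i ^ (j : ℕ) + R ^ (m - (j : ℕ)) * (c * y i * σ i ^ (j : ℕ)) := by
      rw [hc]; ring
    rw [e]
    apply dvd_add
    · exact ((Int.gcd_dvd_left _ _).trans (hx i)).mul_right _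
    · exact (Int.gcd_dvd_right _ _).mul_right _
  choose V hV using hd
  obtain ⟨W, hW⟩ : ∃ W : Matrix (Fin m ⊕ Fin m) (Fin m ⊕ Fin m) ℤ,
      W = Matrix.of fun i => Sum.elim (fun j : Fin m => V i j) (fun j : Fin m => y i * σ i ^ (j : ℕ)) := ⟨_, rfl⟩
  have hprod : Mat m x y σ * U = W * Matrix.diagonal (Sum.elim
      (fun j : Fin m => (Int.gcd M (R ^ (m - j)) : ℤ)) (fun _ => 1)) := by
    ext i c
    rw [Matrix.mul_diagonal]
    rcases c with j | j
    · rw [hV, hW]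
      simp only [Matrix.of_apply, Sum.elim_inl]
      ring
    · rw [hr, hW]
      simp only [Matrix.of_apply, Sum.elim_inr, mul_one]
  have hdet : (Mat m x y σ).det = W.det * ∏ j : Fin m, (Int.gcd M (R ^ (m - j)) : ℤ) := by
    have h1 := congrArg Matrix.det hprod
    rw [Matrix.det_mul, hdetU, mul_one, Matrix.det_mul, Matrix.det_diagonal, Fintype.prod_sum_type] at h1
    simp only [Sum.elim_inl, Sum.elim_inr, Finset.prod_const_one, mul_one] at h1
    exact h1
  rw [hdet]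
  exact Dvd.intro_left _ rfl

end Pool.Agent.U916.GQ
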