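import Pool.Agent.U916.GQ.Two

/-!
# Uniform bounds for the torsion of all orders
-/

set_option autoImplicit false

namespace Pool.Agent.U916.GQ

open NumberField Finset
open scoped Classical

lemma numer2 {L M k : ℝ} (hL : 10 ^ 11 ≤ L) (hM : 1 ≤ M) (hk : 0 ≤ k)
    (h : 1000 * M * (k + 1) * Real.log L ≤ L) :
    Real.exp (L - L / (100 * M)) +
      2 * Real.exp L * (1 + (1 + L)) / Real.exp (L / (200 * M * (k + 1))) ≤
      Real.exp (L - L / (1000 * M * (k + 1))) := by
  have hL0 : 0 < L := by linarith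
  have hT : 1 ≤ Real.log L := by
    rw [Real.le_log_iff_exp_le hL0]
    have := Real.exp_one_lt_d9
    linarith
  have hexp : Real.exp (Real.log L) = L := Real.exp_log hL0
  have hMk : 0 < M * (k + 1) := by positivity
  obtain ⟨u, hu⟩ : ∃ u : ℝ, u = L / (1000 * M * (k + 1)) := ⟨_, rfl⟩
  have hu1 : Real.log L ≤ u := by
    rw [hu, le_div_iff₀ (by positivity)]
    linarith
  have e1 : L / (200 * M * (k + 1)) = 5 * u := by
    rw [hu]
    field_simp
    norm_num
  have e2 : 10 * u ≤ L / (100 * M) := by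
    have : L / (100 * M) = 10 * u * (k + 1) := by
      rw [hu]
      field_simp
      norm_num
    rw [this]
    have hu0 : 0 < u := by linarith
    nlinarith
  rw [← hu, e1, mul_div_assoc, mul_assoc]
  have e3 : L ≤ Real.exp u := by
    calc L = Real.exp (Real.log L) := hexp.symm
      _ ≤ Real.exp u := Real.exp_le_exp.2 hu1
  have e4 : Real.exp (L - L / (100 * M)) ≤ Real.exp (L - u) * (1 / 2) := by
    have f1 : Real.exp (L - L / (100 * M)) ≤ Real.exp (L - u + -u) := by
      apply Real.exp_le_exp.2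
      linarith
    have f2 : Real.exp (-u) ≤ 1 / 2 := by
      rw [Real.exp_neg]
      rw [inv_eq_one_div]
      apply one_div_le_one_div_of_le (by norm_num)
      linarith
    rw [Real.exp_add] at f1
    exact f1.trans (mul_le_mul_of_nonneg_left f2 (Real.exp_pos _).le)
  have e5 : 2 * (Real.exp L * ((1 + (1 + L)) / Real.exp (5 * u))) ≤ Real.exp (L - u) * (1 / 2) := by
    have f1 : Real.exp L = Real.exp (L - u) * Real.exp u := by
      rw [← Real.exp_add]
      congr 1
      ring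
    have f2 : Real.exp (5 * u) = Real.exp u * (Real.exp u) ^ 4 := by
      rw [← Real.exp_nat_mul, ← Real.exp_add]
      congr 1
      push_cast
      ring
    have f3 : Real.exp u * ((1 + (1 + L)) / Real.exp (5 * u)) ≤ 1 / 4 := by
      rw [f2, ← mul_div_assoc, mul_div_mul_left _ _ (Real.exp_pos u).ne', div_le_iff₀ (by positivity)]
      have g1 : L ^ 4 ≤ Real.exp u ^ 4 := pow_le_pow_left₀ hL0.le e3 4
      have g2 : 4 * (1 + (1 + L)) ≤ L ^ 4 := by
        have : (2 : ℝ) * L ≤ L ^ 2 := by nlinarith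
        nlinarith [sq_nonneg (L ^ 2), sq_nonneg L]
      linarith
    calc 2 * (Real.exp L * ((1 + (1 + L)) / Real.exp (5 * u))) =
        Real.exp (L - u) * (2 * (Real.exp u * ((1 + (1 + L)) / Real.exp (5 * u)))) := by
          rw [f1]; ring
      _ ≤ Real.exp (L - u) * (1 / 2) := by
          apply mul_le_mul_of_nonneg_left _ (Real.exp_pos _).le
          linarith
  linarith

/-- **Uniform bound for all orders.** -/
theorem all : ∃ X₀ : ℝ, ∀ X : ℝ, X₀ ≤ X → ∀ N : ℝ, 1000 ≤ N → ∀ k : ℕ,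
    1000 * N ^ ((2 : ℝ) / 3) * (k + 1) * Real.log (Real.log X) ≤ Real.log X →
    ∃ E : Finset ℤ, (E.card : ℝ) ≤ X ^ (1 - 1 / (1000 * N ^ ((2 : ℝ) / 3) * (k + 1))) ∧
    ∀ (K : Type) [Field K] [NumberField K], Module.finrank ℚ K = 2 →
      X < -(discr K : ℝ) → -(discr K : ℝ) ≤ 2 * X → discr K ∉ E →
      ∀ j l : ℕ, j ≤ k → Odd l → (l : ℝ) ≤ N →
        X ^ (1 / (1000 * N ^ ((2 : ℝ) / 3))) *
          (Nat.card {c : ClassGroup (𝓞 K) // c ^ (2 ^ j * l) = 1} : ℝ) ≤
            Nat.card (ClassGroup (𝓞 K)) := by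
  obtain ⟨X₁, hX₁⟩ := uniform
  refine ⟨max X₁ (Real.exp (10 ^ 11)), ?_⟩
  intro X hX N hN k hNX
  have hX1 := (le_max_left _ _).trans hX
  have hX2 := (le_max_right _ _).trans hX
  have hX0 : 0 < X := (Real.exp_pos _).trans_le hX2
  obtain ⟨L, hL⟩ : ∃ L, L = Real.log X := ⟨_, rfl⟩
  have hXL : X = Real.exp L := by rw [hL, Real.exp_log hX0]
  have hL1 : 10 ^ 11 ≤ L := by
    rw [hL, Real.le_log_iff_exp_le hX0]
    exact hX2
  have hL0 : 0 < L := by linarith
  have hT : 1 ≤ Real.log L := by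
    rw [Real.le_log_iff_exp_le hL0]
    have := Real.exp_one_lt_d9
    linarith
  have hN0 : 0 < N := by linarith
  obtain ⟨M, hM⟩ : ∃ M : ℝ, M = N ^ ((2 : ℝ) / 3) := ⟨_, rfl⟩
  rw [← hM] at hNX ⊢
  rw [← hL] at hNX
  have hM1 : 1 ≤ M := by
    rw [hM]
    exact Real.one_le_rpow (by linarith) (by norm_num)
  obtain ⟨A, hA⟩ : ∃ A : ℝ, A = (N / 1000) ^ ((1 : ℝ) / 3) := ⟨_, rfl⟩
  have hA1 : 1 ≤ A := by
    rw [hA]
    apply Real.one_le_rpow _ (by norm_num)
    rw [le_div_iff₀ (by norm_num)]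
    linarith
  have hA3 : 1000 * A ^ 3 = N := by
    rw [hA, ← Real.rpow_natCast, ← Real.rpow_mul (by positivity)]
    norm_num
    ring
  have hA2 : 10 ^ 4 * A ^ 2 = 100 * M := by
    have h1 : A ^ 2 = N ^ ((2 : ℝ) / 3) / (1000 : ℝ) ^ ((2 : ℝ) / 3) := by
      rw [hA, ← Real.rpow_natCast, ← Real.rpow_mul (by positivity), ← Real.div_rpow hN0.le (by norm_num)]
      norm_num
    have h2 : (1000 : ℝ) ^ ((2 : ℝ) / 3) = 100 := by
      have e : (1000 : ℝ) = 10 ^ (3 : ℝ) := by norm_num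
      rw [e, ← Real.rpow_mul (by norm_num)]
      norm_num
    rw [h1, h2, hM]
    ring
  have hMk : 0 < M * ((k : ℝ) + 1) := by positivity
  have hcond : 10 ^ 4 * A ^ 2 * Real.log (Real.log X) ≤ Real.log X := by
    rw [hA2, ← hL]
    refine le_trans ?_ hNX
    have h1 : (1 : ℝ) ≤ (k : ℝ) + 1 := by
      have : (0 : ℝ) ≤ k := Nat.cast_nonneg _
      linarith
    have h2 : 0 ≤ M * Real.log L := by positivity
    have h3 := mul_le_mul_of_nonneg_left h1 h2
    nlinarith
  obtain ⟨E₀, hE₀, hmain⟩ := hX₁ X hX1 A hA1 hcond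
  rw [hA2] at hE₀
  have hrp : ∀ s : ℝ, X ^ s = Real.exp (s * L) := by
    intro s
    rw [Real.rpow_def_of_pos hX0, ← hL, mul_comm]
  obtain ⟨V, hV⟩ : ∃ V : ℝ, V = Real.exp (L / (200 * M * (k + 1))) := ⟨_, rfl⟩
  have hV0 : 0 < V := by rw [hV]; exact Real.exp_pos _
  have hV1 : 1 ≤ V := by
    rw [hV]
    apply Real.one_le_exp
    positivity
  obtain ⟨F, hF⟩ : ∃ F : Finset ℕ, F = (Finset.Icc 1 ⌊2 * X⌋₊).filter (fun d : ℕ => V < (d.divisors.card : ℝ)) :=
    ⟨_, rfl⟩
  have hX1' : 1 ≤ X := by rw [hXL]; exact Real.one_le_exp hL0.le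
  have hFc := card_tau hX1' hV0 F (by
    intro d hd
    rw [hF, Finset.mem_filter, Finset.mem_Icc] at hd
    exact ⟨by omega, (Nat.cast_le.2 hd.1.2).trans (Nat.floor_le (by linarith)), hd.2⟩)
  refine ⟨E₀ ∪ F.image (fun d : ℕ => -(d : ℤ)), ?_, ?_⟩
  · have h1 : ((E₀ ∪ F.image (fun d : ℕ => -(d : ℤ))).card : ℝ) ≤ (E₀.card : ℝ) + (F.card : ℝ) := by
      have := (Finset.card_union_le E₀ (F.image (fun d : ℕ => -(d : ℤ)))).trans
        (Nat.add_le_add_left (Finset.card_image_le) _)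
      exact_mod_cast this
    have h2 := numer2 hL1 hM1 (Nat.cast_nonneg k) hNX
    have h3 : X ^ (1 - 1 / (1000 * M * (k + 1))) = Real.exp (L - L / (1000 * M * (k + 1))) := by
      rw [hrp]
      congr 1
      ring
    have h4 : X ^ (1 - 1 / (100 * M)) = Real.exp (L - L / (100 * M)) := by
      rw [hrp]
      congr 1
      ring
    rw [h3]
    rw [h4] at hE₀
    refine le_trans ?_ h2
    refine h1.trans (add_le_add hE₀ ?_)
    refine hFc.trans ?_
    rw [hV]
    apply div_le_div_of_nonneg_right _ (Real.exp_pos _).le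
    have h5 : Real.log (2 * X) ≤ 1 + L := by
      rw [Real.log_mul (by norm_num) hX0.ne', ← hL]
      have := Real.log_two_lt_d9
      linarith
    rw [hXL] at h5 ⊢
    apply mul_le_mul_of_nonneg_left _ (by positivity)
    linarith
  · intro K _ _ hK hK1 hK2 hKE j l hjk hl hlN
    rw [Finset.mem_union, not_or] at hKE
    have hDneg : discr K < 0 := by
      have : ((discr K : ℤ) : ℝ) < 0 := by linarith
      exact_mod_cast this
    have h1 := hmain K hK hK1 hK2 hKE.1 l hl (by rw [hA3]; exact hlN)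
    rw [hA2] at h1
    have hτ : (((discr K).natAbs.divisors.card : ℕ) : ℝ) ≤ V := by
      by_contra hcon
      apply hKE.2
      rw [Finset.mem_image]
      refine ⟨(discr K).natAbs, ?_, ?_⟩
      · rw [hF, Finset.mem_filter, Finset.mem_Icc]
        refine ⟨⟨?_, ?_⟩, not_le.1 hcon⟩
        · rw [Nat.one_le_iff_ne_zero, Ne, Int.natAbs_eq_zero]
          exact hDneg.ne
        · apply Nat.le_floor
          have e1 : (((discr K).natAbs : ℕ) : ℝ) = -((discr K : ℤ) : ℝ) := by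
            rw [Nat.cast_natAbs, abs_of_neg hDneg]
            push_cast
            rfl
          rw [e1]
          exact hK2
      · omega
    have h2 : (Nat.card {c : ClassGroup (𝓞 K) // c ^ 2 = 1} : ℝ) ≤ V := by
      refine le_trans ?_ hτ
      exact_mod_cast two_le K hK hDneg
    have h3 : (Nat.card {c : ClassGroup (𝓞 K) // c ^ (2 ^ j * l) = 1} : ℝ) ≤
        (Nat.card {c : ClassGroup (𝓞 K) // c ^ 2 = 1} : ℝ) ^ j *
          (Nat.card {c : ClassGroup (𝓞 K) // c ^ l = 1} : ℝ) := by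
      exact_mod_cast dbl_pow (G := ClassGroup (𝓞 K)) j l
    have h4 : (Nat.card {c : ClassGroup (𝓞 K) // c ^ 2 = 1} : ℝ) ^ j ≤ V ^ k :=
      (pow_le_pow_left₀ (Nat.cast_nonneg _) h2 j).trans (pow_le_pow_right₀ hV1 hjk)
    have h5 : X ^ (1 / (1000 * M)) * V ^ k ≤ X ^ (1 / (100 * M)) := by
      rw [hrp, hrp, hV, ← Real.exp_nat_mul, ← Real.exp_add]
      apply Real.exp_le_exp.2
      have e1 : (k : ℝ) * (L / (200 * M * (k + 1))) ≤ L / (200 * M) := by
        rw [mul_div_assoc', div_le_div_iff₀ (by positivity) (by positivity)]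
        have : 0 ≤ L * (200 * M) := by positivity
        nlinarith
      have e2 : 1 / (1000 * M) * L + L / (200 * M) ≤ 1 / (100 * M) * L := by
        have : 1 / (100 * M) * L - (1 / (1000 * M) * L + L / (200 * M)) = L / (250 * M) := by
          field_simp
          norm_num
        have h6 : 0 ≤ L / (250 * M) := by positivity
        linarith
      linarith
    have hX3 : 0 ≤ X ^ (1 / (1000 * M)) := Real.rpow_nonneg hX0.le _
    calc X ^ (1 / (1000 * M)) * (Nat.card {c : ClassGroup (𝓞 K) // c ^ (2 ^ j * l) = 1} : ℝ)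
        ≤ X ^ (1 / (1000 * M)) * (V ^ k * (Nat.card {c : ClassGroup (𝓞 K) // c ^ l = 1} : ℝ)) := by
          apply mul_le_mul_of_nonneg_left _ hX3
          exact h3.trans (mul_le_mul_of_nonneg_right h4 (Nat.cast_nonneg _))
      _ = (X ^ (1 / (1000 * M)) * V ^ k) * (Nat.card {c : ClassGroup (𝓞 K) // c ^ l = 1} : ℝ) := by ring
      _ ≤ X ^ (1 / (100 * M)) * (Nat.card {c : ClassGroup (𝓞 K) // c ^ l = 1} : ℝ) :=
          mul_le_mul_of_nonneg_right h5 (Nat.cast_nonneg _)
      _ ≤ _ := h1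

end Pool.Agent.U916.GQ
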