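import Pool.Agent.U916.GQ.Pin

/-!
# Few radicands for a given norm; the number of norms
-/

set_option autoImplicit false

namespace Pool.Agent.U916.GQ

/-- `x ^ 2 + d y ^ 2` takes the value `M n` at coprime `x`, `y ≥ 1` -/
def Rep (M n : ℕ) (d : ℤ) : Prop := ∃ x y : ℤ, IsCoprime x y ∧ 1 ≤ y ∧ x ^ 2 + d * y ^ 2 = M * n ∧
  IsCoprime d (M : ℤ)

lemma coprime_rad_of {z : ℤ} {M : ℕ} (h : ∀ q : ℕ, q.Prime → q ∣ M → ¬ (q : ℤ) ∣ z) :
    IsCoprime z (rad M : ℤ) := by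
  rw [rad]
  push_cast
  apply IsCoprime.prod_right
  intro q hq
  have hqp := Nat.prime_of_mem_primeFactors hq
  have h1 := h q hqp (Nat.dvd_of_mem_primeFactors hq)
  exact ((Nat.prime_iff_prime_int.1 hqp).coprime_iff_not_dvd.2 h1).symm

lemma th_pos {D : ℝ} {m M : ℕ} (hD : 1 < D) (hm : 1 ≤ m) (hM : 1 < M) : 0 < th D m M := by
  unfold th
  have h1 : 0 < Real.log D := Real.log_pos hD
  have h2 : 0 < Real.log M := Real.log_pos (by exact_mod_cast hM)
  have hm1 : (1 : ℝ) ≤ m := by exact_mod_cast hm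
  have h3 : 1 / (8 * (m : ℝ)) < 1 := by
    rw [div_lt_one (by positivity)]
    linarith
  have h4 : 0 < 1 - 1 / (8 * (m : ℝ)) := by linarith
  positivity

lemma pow_th {D : ℝ} {m M : ℕ} (hD : 0 < D) (hM : 1 < M) :
    (M : ℝ) ^ (th D m M) = D ^ (1 - 1 / (8 * (m : ℝ))) := by
  have h2 : 0 < Real.log M := Real.log_pos (by exact_mod_cast hM)
  have hM0 : (0 : ℝ) < M := by exact_mod_cast (by omega : 0 < M)
  rw [Real.rpow_def_of_pos hM0, Real.rpow_def_of_pos hD, th]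
  congr 1
  field_simp

theorem one_norm {D A : ℝ} {m M n : ℕ} (hD : Real.exp 4096 ≤ D) (hA : 1 ≤ A) (hm : 3 * A ^ 2 ≤ m)
    (hml : 2 * (m : ℝ) ≤ Real.log D) (hM : M ≠ 0) (hodd : Odd M) (hn : n ≠ 0)
    (hN : (M : ℝ) * n ≤ D ^ A) (hn2 : (n : ℝ) ≤ D ^ ((1 : ℝ) / 16))
    (hsq : ¬ IsSquare ((M * n : ℕ) : ℤ)) :
    ({d : ℤ | D < d ∧ (d : ℝ) ≤ 2 * D ∧ Rep M n d}.ncard : ℝ) ≤
      D ^ (1 - 1 / (8 * (m : ℝ))) * (rad M : ℝ) ^ 2 *
        (10 ^ 11 * D ^ (1 / (16 * (m : ℝ))) * ((m : ℝ) ^ 2 * Real.log D) ^ 3) := by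
  classical
  have hD0 : 0 < D := (Real.exp_pos _).trans_le hD
  have hl0 : 4096 ≤ Real.log D := by
    rw [Real.le_log_iff_exp_le hD0]
    exact hD
  have hD1 : 1 < D := by
    have := Real.add_one_le_exp (4096 : ℝ)
    linarith
  have hm3 : (3 : ℝ) ≤ m := by nlinarith
  have hmN : 1 ≤ m := by
    have : (1 : ℝ) ≤ m := by linarith
    exact_mod_cast this
  obtain ⟨W, hW⟩ : ∃ W : ℝ, W = 10 ^ 11 * D ^ (1 / (16 * (m : ℝ))) * ((m : ℝ) ^ 2 * Real.log D) ^ 3 :=
    ⟨_, rfl⟩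
  rw [← hW]
  have hW0 : 0 ≤ W := by
    rw [hW]
    have : 0 ≤ D ^ (1 / (16 * (m : ℝ))) := Real.rpow_nonneg hD0.le _
    positivity
  have hP0 : (0 : ℝ) < rad M := by exact_mod_cast rad_pos M
  obtain ⟨S, hS⟩ : ∃ S : Set ℤ, S = {d : ℤ | D < d ∧ (d : ℝ) ≤ 2 * D ∧ Rep M n d} := ⟨_, rfl⟩
  rw [← hS]
  have hSfin : S.Finite := by
    refine (Set.finite_Icc ⌈D⌉ ⌊2 * D⌋).subset ?_
    rw [hS]
    rintro d ⟨h1, h2, -⟩
    exact ⟨Int.ceil_le.2 h1.le, Int.le_floor.2 h2⟩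
  rcases S.eq_empty_or_nonempty with hemp | hne
  · rw [hemp, Set.ncard_empty]
    simp only [Nat.cast_zero]
    have : 0 ≤ D ^ (1 - 1 / (8 * (m : ℝ))) := Real.rpow_nonneg hD0.le _
    positivity
  have hND : D ≤ (M : ℝ) * n := by
    obtain ⟨d, hd⟩ := hne
    rw [hS] at hd
    obtain ⟨h1, h2, x, y, h3, h4, h5, h6⟩ := hd
    have e1 : (x : ℝ) ^ 2 + (d : ℝ) * (y : ℝ) ^ 2 = M * n := by exact_mod_cast h5
    have e2 : (1 : ℝ) ≤ y := by exact_mod_cast h4
    have e3 : (1 : ℝ) ≤ (y : ℝ) ^ 2 := by nlinarith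
    have e4 : (d : ℝ) * 1 ≤ d * (y : ℝ) ^ 2 := mul_le_mul_of_nonneg_left e3 (by linarith)
    nlinarith [sq_nonneg (x : ℝ)]
  have hM1 : 1 < M := by
    have e1 : D ^ ((1 : ℝ) / 16) < D := by
      conv_rhs => rw [← Real.rpow_one D]
      exact Real.rpow_lt_rpow_of_exponent_lt hD1 (by norm_num)
    have e2 : (1 : ℝ) < M := by
      by_contra hc
      rw [not_lt] at hc
      have : (M : ℝ) * n ≤ 1 * n := mul_le_mul_of_nonneg_right hc (Nat.cast_nonneg n)
      linarith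
    exact_mod_cast e2
  have hθ := th_pos (m := m) hD1 hmN hM1
  obtain ⟨R, hR⟩ : ∃ R : ℕ, R = RR (th D m M) M := ⟨_, rfl⟩
  have hR0 : 0 < R := by rw [hR]; exact RR_pos _ _
  have hRlow : D ^ (1 - 1 / (8 * (m : ℝ))) ≤ R := by
    rw [hR, ← pow_th hD0 hM1]
    exact le_RR hM
  have hRup : (R : ℝ) ≤ D ^ (1 - 1 / (8 * (m : ℝ))) * rad M := by
    rw [hR, ← pow_th hD0 hM1]
    exact RR_le hθ.le hM
  have hPR : (rad M : ℤ) ∣ R := by
    rw [hR]
    exact_mod_cast rad_dvd_RR hθ M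
  -- choice of the representations
  have hrep : ∀ d ∈ S, ∃ x y s : ℤ, IsCoprime x y ∧ 1 ≤ y ∧ x ^ 2 + d * y ^ 2 = M * n ∧
      IsCoprime d (M : ℤ) ∧ 0 ≤ s ∧ s < rad M ∧ (rad M : ℤ) ∣ x - s * y := by
    intro d hd
    rw [hS] at hd
    obtain ⟨h1, h2, x, y, h3, h4, h5, h6⟩ := hd
    have hyP : IsCoprime y (rad M : ℤ) := by
      apply coprime_rad_of
      intro q hq hqM hqy
      have hqx : (q : ℤ) ∣ x ^ 2 := by
        have : x ^ 2 = M * n - d * y ^ 2 := by linear_combination h5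
        rw [this]
        apply dvd_sub
        · exact Dvd.dvd.mul_right (by exact_mod_cast hqM) _
        · exact Dvd.dvd.mul_left (hqy.trans (dvd_pow_self y two_ne_zero)) _
      have hqx' := (Nat.prime_iff_prime_int.1 hq).dvd_of_dvd_pow hqx
      have := h3.isUnit_of_dvd' hqx' hqy
      exact (Nat.prime_iff_prime_int.1 hq).not_isUnit this
    obtain ⟨v, w, hvw⟩ := hyP
    refine ⟨x, y, (x * v) % rad M, h3, h4, h5, h6, Int.emod_nonneg _ (by exact_mod_cast (rad_pos M).ne'),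
      Int.emod_lt_of_pos _ (by exact_mod_cast rad_pos M), ?_⟩
    have e1 : x - (x * v) % rad M * y = (rad M : ℤ) * (x * w + (x * v / rad M) * y) := by
      have := Int.emod_add_mul_ediv (x * v) (rad M : ℤ)
      linear_combination (-x) * hvw - y * this
    rw [e1]
    exact Dvd.intro _ rfl
  choose! x y s hxys using hrep
  -- the classes
  have hcov : (hSfin.toFinset : Finset ℤ) ⊆ (Finset.range R ×ˢ Finset.range (rad M)).biUnion
      (fun c => hSfin.toFinset.filter (fun d : ℤ => d % R = c.1 ∧ s d = c.2)) := by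
    intro d hd
    have hdS := (Set.Finite.mem_toFinset hSfin).1 hd
    obtain ⟨-, -, -, -, h5, h6, -⟩ := hxys d hdS
    have g1 : 0 ≤ d % (R : ℤ) := Int.emod_nonneg _ (by exact_mod_cast hR0.ne')
    have g2 : d % (R : ℤ) < R := Int.emod_lt_of_pos _ (by exact_mod_cast hR0)
    rw [Finset.mem_biUnion]
    refine ⟨((d % R).toNat, (s d).toNat), ?_, ?_⟩
    · rw [Finset.mem_product, Finset.mem_range, Finset.mem_range]
      constructor
      · simp only
        omega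
      · simp only
        omega
    · rw [Finset.mem_filter]
      refine ⟨hd, ?_, ?_⟩
      · simp only
        omega
      · simp only
        omega
  have hclass : ∀ c ∈ Finset.range R ×ˢ Finset.range (rad M),
      (hSfin.toFinset.filter (fun d : ℤ => d % R = c.1 ∧ s d = c.2)).card ≤ ⌊W⌋₊ := by
    intro c _
    apply Nat.le_floor
    obtain ⟨F, hF⟩ : ∃ F : Finset ℤ, F = hSfin.toFinset.filter (fun d : ℤ => d % R = c.1 ∧ s d = c.2) :=
      ⟨_, rfl⟩
    rw [← hF]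
    rcases F.eq_empty_or_nonempty with h0 | ⟨d₀, hd₀⟩
    · rw [h0]
      simpa using hW0
    have hFm : ∀ d ∈ F, d ∈ S ∧ d % R = c.1 ∧ s d = c.2 := by
      intro d hd
      rw [hF, Finset.mem_filter, Set.Finite.mem_toFinset] at hd
      exact hd
    obtain ⟨σ, hσd⟩ : ∃ σ : ℤ → ℤ, ∀ d ∈ F, d = d₀ + R * σ d := by
      refine ⟨fun d => (d - d₀) / R, ?_⟩
      intro d hd
      have e1 : d % (R : ℤ) = d₀ % (R : ℤ) := by
        rw [(hFm d hd).2.1, (hFm d₀ hd₀).2.1]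
      have e2 : (R : ℤ) ∣ d - d₀ := Int.ModEq.dvd (show d₀ % (R : ℤ) = d % (R : ℤ) from e1.symm)
      simp only
      rw [Int.mul_ediv_cancel' e2]
      ring
    obtain ⟨T, hT⟩ : ∃ T : Finset ℤ, T = F.image σ := ⟨_, rfl⟩
    have hTc : T.card = F.card := by
      rw [hT]
      apply Finset.card_image_of_injOn
      intro a ha b hb hab
      have e1 := hσd a ha
      have e2 := hσd b hb
      rw [e1, e2, hab]
    rw [← hTc]
    have hTm : ∀ t ∈ T, d₀ + R * t ∈ F := by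
      intro t ht
      rw [hT, Finset.mem_image] at ht
      obtain ⟨d, hd, rfl⟩ := ht
      rw [← hσd d hd]
      exact hd
    obtain ⟨h3, h4, h5, h6, h7, h8, h9⟩ := hxys d₀ (hFm d₀ hd₀).1
    -- coprimality
    have hyP : ∀ d ∈ S, IsCoprime (y d) (rad M : ℤ) := by
      intro d hd
      obtain ⟨h3, h4, h5, h6, h7, h8, h9⟩ := hxys d hd
      apply coprime_rad_of
      intro q hq hqM hqy
      have hqx : (q : ℤ) ∣ x d ^ 2 := by
        have : x d ^ 2 = M * n - d * y d ^ 2 := by linear_combination h5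
        rw [this]
        apply dvd_sub
        · exact Dvd.dvd.mul_right (by exact_mod_cast hqM) _
        · exact Dvd.dvd.mul_left (hqy.trans (dvd_pow_self _ two_ne_zero)) _
      have hqx' := (Nat.prime_iff_prime_int.1 hq).dvd_of_dvd_pow hqx
      exact (Nat.prime_iff_prime_int.1 hq).not_isUnit (h3.isUnit_of_dvd' hqx' hqy)
    have hs2 : (rad M : ℤ) ∣ s d₀ ^ 2 + d₀ := by
      have e1 : (rad M : ℤ) ∣ (s d₀ ^ 2 + d₀) * y d₀ ^ 2 := by
        have e2 : (s d₀ ^ 2 + d₀) * y d₀ ^ 2 = M * n - (x d₀ - s d₀ * y d₀) * (x d₀ + s d₀ * y d₀) := by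
          linear_combination h5
        rw [e2]
        apply dvd_sub
        · apply Dvd.dvd.mul_right
          have : rad M ∣ M := Nat.prod_primeFactors_dvd M
          exact_mod_cast this
        · exact Dvd.dvd.mul_right h9 _
      exact ((hyP d₀ (hFm d₀ hd₀).1).symm.pow_right).dvd_of_dvd_mul_right e1
    have h2s : IsCoprime (2 * s d₀) (rad M : ℤ) := by
      apply coprime_rad_of
      intro q hq hqM hqs
      have hqP : (q : ℤ) ∣ (rad M : ℤ) := by
        have : q ∣ rad M := by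
          rw [rad]
          exact Finset.dvd_prod_of_mem _ (Nat.mem_primeFactors.2 ⟨hq, hqM, hM⟩)
        exact_mod_cast this
      have hqI := Nat.prime_iff_prime_int.1 hq
      rcases hqI.dvd_or_dvd hqs with h | h
      · have : q ∣ 2 := by exact_mod_cast h
        have : q = 2 := (Nat.prime_dvd_prime_iff_eq hq Nat.prime_two).1 this
        subst this
        exact (Nat.not_even_iff_odd.2 hodd) (even_iff_two_dvd.2 hqM)
      · have e1 : (q : ℤ) ∣ d₀ := by
          have e2 : d₀ = (s d₀ ^ 2 + d₀) - s d₀ ^ 2 := by ring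
          rw [e2]
          exact dvd_sub (hqP.trans hs2) (h.trans (dvd_pow_self _ two_ne_zero))
        have e3 : (q : ℤ) ∣ M := by exact_mod_cast hqM
        exact hqI.not_isUnit (h6.isUnit_of_dvd' e1 e3)
    obtain ⟨u, hu⟩ : ∃ u : ℤ, (rad M : ℤ) ∣ 1 + 2 * s d₀ * u := by
      obtain ⟨a, b, hab⟩ := h2s
      exact ⟨-a, b, by linear_combination -hab⟩
    have hmain := pinq (m := m) (M := M) (n := n) hD hA hm hml hM hn hN hn2 hND hθ hsq d₀ (s d₀) u hs2 hu T
      (fun t => x (d₀ + R * t)) (fun t => y (d₀ + R * t)) ?_ ?_ ?_ ?_ ?_ ?_ ?_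
    · rw [hW]
      exact hmain
    · intro t ht
      rw [← hR]
      exact (hxys _ (hFm _ (hTm t ht)).1).2.2.1
    · intro t ht
      exact (hxys _ (hFm _ (hTm t ht)).1).1
    · intro t ht
      exact (hxys _ (hFm _ (hTm t ht)).1).2.1
    · intro t ht
      exact h2s.mul_left (hyP _ (hFm _ (hTm t ht)).1)
    · intro t ht
      have e1 := (hFm _ (hTm t ht)).2.2
      have e2 := (hFm _ hd₀).2.2
      have e3 := (hxys _ (hFm _ (hTm t ht)).1).2.2.2.2.2.2
      rw [e1, ← e2] at e3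
      exact e3
    · intro t ht
      rw [← hR]
      have e1 := (hFm _ (hTm t ht)).1
      rw [hS] at e1
      exact e1.1.le
    · intro t ht
      have e1 := (hFm _ (hTm t ht)).1
      have e2 := (hFm _ hd₀).1
      rw [hS] at e1 e2
      have e3 : |((R : ℝ) * t)| ≤ D := by
        have g1 := e1.1
        have g2 := e1.2.1
        have g3 := e2.1
        have g4 := e2.2.1
        push_cast at g1 g2
        rw [abs_le]
        constructor <;> linarith
      rw [abs_mul, abs_of_pos (by exact_mod_cast hR0 : (0 : ℝ) < R)] at e3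
      have e4 : D ^ (1 - 1 / (8 * (m : ℝ))) * D ^ (1 / (8 * (m : ℝ))) = D := by
        rw [← Real.rpow_add hD0]
        have : 1 - 1 / (8 * (m : ℝ)) + 1 / (8 * (m : ℝ)) = 1 := by ring
        rw [this, Real.rpow_one]
      have e5 : D ^ (1 - 1 / (8 * (m : ℝ))) * |(t : ℝ)| ≤
          D ^ (1 - 1 / (8 * (m : ℝ))) * D ^ (1 / (8 * (m : ℝ))) := by
        rw [e4]
        exact (mul_le_mul_of_nonneg_right hRlow (abs_nonneg _)).trans e3
      exact le_of_mul_le_mul_left e5 (Real.rpow_pos_of_pos hD0 _)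
  have h1 : S.ncard ≤ (R * rad M) * ⌊W⌋₊ := by
    rw [Set.ncard_eq_toFinset_card S hSfin]
    refine (Finset.card_le_card hcov).trans ?_
    refine (Finset.card_biUnion_le_card_mul _ _ _ hclass).trans ?_
    rw [Finset.card_product, Finset.card_range, Finset.card_range]
  have h2 : (S.ncard : ℝ) ≤ (R : ℝ) * rad M * (⌊W⌋₊ : ℝ) := by exact_mod_cast h1
  have h3 : (⌊W⌋₊ : ℝ) ≤ W := Nat.floor_le hW0
  calc (S.ncard : ℝ) ≤ (R : ℝ) * rad M * (⌊W⌋₊ : ℝ) := h2
    _ ≤ (D ^ (1 - 1 / (8 * (m : ℝ))) * rad M) * rad M * W := by gcongr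
    _ = D ^ (1 - 1 / (8 * (m : ℝ))) * (rad M : ℝ) ^ 2 * W := by ring

end Pool.Agent.U916.GQ
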