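import Pool.Agent.U916.GQ.All

/-!
# The exponent of the class group
-/

set_option autoImplicit false

namespace Pool.Agent.U916.GQ

open NumberField Finset
open scoped Classical

/-- **The torsion of every order up to a power of the logarithm.** -/
theorem expo (C : ℝ) (hC : 1 ≤ C) : ∃ X₀ : ℝ, ∀ X : ℝ, X₀ ≤ X →
    ∃ E : Finset ℤ, (E.card : ℝ) ≤ X / Real.log X ^ C ∧
    ∀ (K : Type) [Field K] [NumberField K], Module.finrank ℚ K = 2 →
      X < -(discr K : ℝ) → -(discr K : ℝ) ≤ 2 * X → discr K ∉ E →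
      ∀ n : ℕ, 1 ≤ n → (n : ℝ) ≤ (Real.log X / (4000 * C * Real.log (Real.log X) ^ 2)) ^ ((3 : ℝ) / 2) →
        Real.exp (C * Real.log (Real.log X) ^ 2) *
          (Nat.card {c : ClassGroup (𝓞 K) // c ^ n = 1} : ℝ) ≤ Nat.card (ClassGroup (𝓞 K)) := by
  obtain ⟨X₁, hX₁⟩ := all
  -- a lower bound for the logarithm
  obtain ⟨L₁, hL₁⟩ : ∃ L₁ : ℝ, ∀ L : ℝ, L₁ ≤ L → 4000 * C * Real.log L ^ 2 * 100 ≤ L := by
    have h1 : Filter.Tendsto (fun L : ℝ => Real.log L ^ 2 / L) Filter.atTop (nhds 0) := by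
      have h := Real.isLittleO_pow_log_id_atTop (n := 2)
      have := h.tendsto_div_nhds_zero
      exact this
    have h2 : ∀ᶠ L in Filter.atTop, Real.log L ^ 2 / L < 1 / (400000 * C) :=
      h1.eventually (gt_mem_nhds (by positivity))
    obtain ⟨L₁, hL₁⟩ := (h2.and (Filter.eventually_gt_atTop 0)).exists_forall_of_atTop
    refine ⟨L₁, fun L hL => ?_⟩
    obtain ⟨h3, h4⟩ := hL₁ L hL
    rw [div_lt_div_iff₀ h4 (by positivity)] at h3
    linarith
  refine ⟨max X₁ (max (Real.exp (10 ^ 11)) (Real.exp L₁)), ?_⟩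
  intro X hX
  have hX1 := (le_max_left _ _).trans hX
  have hX2 := ((le_max_left _ _).trans (le_max_right _ _)).trans hX
  have hX3 := ((le_max_right _ _).trans (le_max_right _ _)).trans hX
  have hX0 : 0 < X := (Real.exp_pos _).trans_le hX2
  obtain ⟨L, hL⟩ : ∃ L, L = Real.log X := ⟨_, rfl⟩
  have hXL : X = Real.exp L := by rw [hL, Real.exp_log hX0]
  have hL1 : 10 ^ 11 ≤ L := by
    rw [hL, Real.le_log_iff_exp_le hX0]
    exact hX2
  have hL2 : L₁ ≤ L := by
    rw [hL, Real.le_log_iff_exp_le hX0]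
    exact hX3
  have hL0 : 0 < L := by linarith
  obtain ⟨T, hT⟩ : ∃ T, T = Real.log L := ⟨_, rfl⟩
  have hT1 : 2 ≤ T := by
    rw [hT, Real.le_log_iff_exp_le hL0]
    have h1 : Real.exp 2 = Real.exp 1 * Real.exp 1 := by rw [← Real.exp_add]; norm_num
    have h2 := Real.exp_one_lt_d9
    have h3 := Real.exp_pos 1
    rw [h1]
    nlinarith
  have hT0 : 0 < T := by linarith
  have hbig := hL₁ L hL2
  rw [← hT] at hbig
  rw [← hL, ← hT]
  obtain ⟨a, ha⟩ : ∃ a : ℝ, a = L / (4000 * C * T ^ 2) := ⟨_, rfl⟩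
  have hC0 : 0 < C := by linarith
  have ha1 : 100 ≤ a := by
    rw [ha, le_div_iff₀ (by positivity)]
    linarith
  have ha0 : 0 < a := by linarith
  obtain ⟨N, hN⟩ : ∃ N : ℝ, N = a ^ ((3 : ℝ) / 2) := ⟨_, rfl⟩
  have hN1 : 1000 ≤ N := by
    have h1 : (100 : ℝ) ^ ((3 : ℝ) / 2) ≤ N := by
      rw [hN]
      exact Real.rpow_le_rpow (by norm_num) ha1 (by norm_num)
    have h2 : (100 : ℝ) ^ ((3 : ℝ) / 2) = 1000 := by
      have e : (100 : ℝ) = 10 ^ (2 : ℝ) := by norm_num
      rw [e, ← Real.rpow_mul (by norm_num)]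
      norm_num
    linarith
  have hN0 : 0 < N := by linarith
  have hN2 : N ^ ((2 : ℝ) / 3) = a := by
    rw [hN, ← Real.rpow_mul ha0.le]
    norm_num
  obtain ⟨k, hk⟩ : ∃ k : ℕ, k = ⌊Real.log N / Real.log 2⌋₊ := ⟨_, rfl⟩
  have hlog2 := Real.log_two_gt_d9
  have hlog2' : 0 < Real.log 2 := by linarith
  have hk1 : (k : ℝ) ≤ Real.log N / Real.log 2 := by
    rw [hk]
    apply Nat.floor_le
    apply div_nonneg (Real.log_nonneg (by linarith)) hlog2'.le
  have hlogN : Real.log N ≤ 3 / 2 * T := by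
    rw [hN, Real.log_rpow ha0]
    apply mul_le_mul_of_nonneg_left _ (by norm_num)
    rw [hT]
    apply Real.log_le_log ha0
    rw [ha]
    apply div_le_self hL0.le
    nlinarith [mul_le_mul hC (by nlinarith : (1 : ℝ) ≤ T ^ 2) (by norm_num) hC0.le]
  have hk2 : (k : ℝ) + 1 ≤ 4 * T := by
    have h1 : Real.log N / Real.log 2 ≤ 3 * T := by
      rw [div_le_iff₀ hlog2']
      nlinarith
    linarith
  have hk0 : (0 : ℝ) < (k : ℝ) + 1 := by positivity
  have haT : a * (4000 * C * T ^ 2) = L := by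
    rw [ha]
    field_simp
  have hcond : 1000 * N ^ ((2 : ℝ) / 3) * (k + 1) * Real.log (Real.log X) ≤ Real.log X := by
    rw [hN2, ← hL, ← hT, ← haT]
    have h1 : 1000 * a * (k + 1) * T ≤ 1000 * a * (4 * T) * T := by
      apply mul_le_mul_of_nonneg_right _ hT0.le
      apply mul_le_mul_of_nonneg_left hk2 (by positivity)
    have h2 : 1000 * a * (4 * T) * T * 1 ≤ 1000 * a * (4 * T) * T * C :=
      mul_le_mul_of_nonneg_left hC (by positivity)
    calc 1000 * a * (k + 1) * T ≤ 1000 * a * (4 * T) * T := h1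
      _ ≤ 1000 * a * (4 * T) * T * C := by linarith
      _ = a * (4000 * C * T ^ 2) := by ring
  obtain ⟨E, hE, hmain⟩ := hX₁ X hX1 N hN1 k hcond
  have hrp : ∀ s : ℝ, X ^ s = Real.exp (s * L) := by
    intro s
    rw [Real.rpow_def_of_pos hX0, ← hL, mul_comm]
  refine ⟨E, ?_, ?_⟩
  · refine hE.trans ?_
    rw [hN2, hrp, Real.rpow_def_of_pos hL0, ← hT, hXL, ← Real.exp_sub]
    apply Real.exp_le_exp.2
    have h1 : C * T ≤ 1 / (1000 * a * (k + 1)) * L := by
      rw [one_div, inv_mul_eq_div, le_div_iff₀ (by positivity), ← haT]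
      have h2 : C * T * (1000 * a * (k + 1)) ≤ C * T * (1000 * a * (4 * T)) := by
        apply mul_le_mul_of_nonneg_left _ (by positivity)
        apply mul_le_mul_of_nonneg_left hk2 (by positivity)
      calc C * T * (1000 * a * (k + 1)) ≤ C * T * (1000 * a * (4 * T)) := h2
        _ = a * (4000 * C * T ^ 2) := by ring
    nlinarith
  · intro K _ _ hK hK1 hK2 hKE n hn hnN
    rw [← ha, ← hN] at hnN
    obtain ⟨j, l, hl, hnl⟩ := Nat.exists_eq_two_pow_mul_odd (n := n) (by omega)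
    have hl1 : 1 ≤ l := hl.pos
    have h2j : 2 ^ j ≤ n := by
      rw [hnl]
      exact Nat.le_mul_of_pos_right _ hl.pos
    have hln : l ≤ n := by
      rw [hnl]
      exact Nat.le_mul_of_pos_left _ (by positivity)
    have hjk : j ≤ k := by
      rw [hk]
      apply Nat.le_floor
      rw [le_div_iff₀ hlog2', ← Real.log_pow]
      apply Real.log_le_log (by positivity)
      refine le_trans ?_ hnN
      exact_mod_cast h2j
    have h1 := hmain K hK hK1 hK2 hKE j l hjk hl ((Nat.cast_le.2 hln).trans hnN)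
    rw [← hnl] at h1
    refine le_trans (mul_le_mul_of_nonneg_right ?_ (Nat.cast_nonneg _)) h1
    rw [hN2, hrp]
    apply Real.exp_le_exp.2
    have h2 : 1 / (1000 * a) * L = 4 * C * T ^ 2 := by
      rw [← haT]
      field_simp
      norm_num
    rw [h2]
    have : 0 ≤ C * T ^ 2 := by positivity
    linarith

end Pool.Agent.U916.GQ
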