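import Pool.Agent.U916.GQ.Im

/-!
# Uniform bounds for the torsion of the class groups of imaginary quadratic fields
-/

set_option autoImplicit false

namespace Pool.Agent.U916.GQ

open NumberField Finset Pool.Agent.TH869.EVF Pool.Agent.Y159.QS
open scoped Classical

lemma not_sq {p q l n : ℕ} (hp : p.Prime) (hq : q.Prime) (hpq : p ≠ q) (hp2 : p ≠ 2) (hl : Odd l)
    (hn : n = 1 ∨ n = 4) : ¬ IsSquare (((p * q) ^ l * n : ℕ) : ℤ) := by
  rw [Int.isSquare_natCast_iff]
  rintro ⟨s, hs⟩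
  have hn0 : n ≠ 0 := by omega
  have hs0 : s ≠ 0 := by
    rintro rfl
    have h1 : (p * q) ^ l * n ≠ 0 := mul_ne_zero (pow_ne_zero _ (mul_ne_zero hp.ne_zero hq.ne_zero)) hn0
    exact h1 (by rw [hs])
  have h1 := congrArg (fun t => t.factorization p) hs
  rw [Nat.factorization_mul (pow_ne_zero _ (mul_ne_zero hp.ne_zero hq.ne_zero)) hn0,
    Nat.factorization_pow, Nat.factorization_mul hp.ne_zero hq.ne_zero,
    Nat.factorization_mul hs0 hs0, hp.factorization, hq.factorization] at h1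
  have hnp : n.factorization p = 0 := by
    apply Nat.factorization_eq_zero_of_not_dvd
    intro h
    rcases hn with rfl | rfl
    · exact hp.one_lt.ne' (Nat.dvd_one.1 h)
    · have h2 : p ∣ 2 ^ 2 := h
      exact hp2 ((Nat.prime_dvd_prime_iff_eq hp Nat.prime_two).1 (hp.dvd_of_dvd_pow h2))
  simp only [Finsupp.add_apply, Finsupp.smul_apply, Finsupp.single_apply, hnp, smul_eq_mul,
    if_true, if_neg hpq.symm] at h1
  obtain ⟨k, hk⟩ := hl
  omega

lemma prod_two {p q l : ℕ} (hp : p.Prime) (hq : q.Prime) (hpq : p ≠ q) (hl : l ≠ 0) (t : ℝ) :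
    ∏ r ∈ ((p * q) ^ l).primeFactors, ((r : ℝ) * t) = p * t * (q * t) := by
  rw [Nat.primeFactors_pow _ hl, Nat.primeFactors_mul hp.ne_zero hq.ne_zero, hp.primeFactors,
    hq.primeFactors]
  rw [show ({p} ∪ {q} : Finset ℕ) = {p, q} from rfl, Finset.prod_pair hpq]

/-- the collected numerical inequalities -/
lemma numer {C Y0 L a : ℝ} (hC : 0 < C) (hL1 : 10 ^ 11 ≤ L) (hL2 : (1 + 2 * C) ^ 4 ≤ L) (hL3 : Y0 ≤ L)
    (_ : 0 < a) (ha1 : a ≤ 1) (haL : 10 ^ 4 * Real.log L ≤ a * L) :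
    Y0 ≤ Real.exp (a * L / 4000) ∧
    Real.exp (a * L / 4000) * L * (Real.exp (a * L / 4000) * L) ≤ Real.exp (a * L / 1000) ∧
    4 ≤ Real.exp (a * L / 1000) ∧
    Real.exp (a * L / 1000) ^ 6 * Real.exp (L - a * L / 64) * (10 ^ 11 * (L ^ 3 / 4) ^ 3) ≤
      Real.exp (L - a * L / 8000) ∧
    C * (Real.exp L * Real.exp (-(a * L / 8000)) + Real.exp (a * L / 2000)) ≤
      2 * C * Real.exp (L - a * L / 8000) ∧
    (1 + 2 * C) * Real.exp (L - a * L / 8000) ≤ Real.exp (L - a * L / 10 ^ 4) ∧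
    Real.exp (a * L / 10 ^ 4) ≤ Real.exp (a * L / 8000) / 8 := by
  have hL0 : 0 < L := by linarith
  have hT : 1 ≤ Real.log L := by
    rw [Real.le_log_iff_exp_le hL0]
    have := Real.exp_one_lt_d9
    linarith
  have hexp : Real.exp (Real.log L) = L := Real.exp_log hL0
  have hpow : ∀ k : ℕ, L ^ k = Real.exp (k * Real.log L) := by
    intro k
    rw [Real.exp_nat_mul, hexp]
  have hquart : ∀ c : ℝ, 0 ≤ c → c ^ 4 ≤ L → c ≤ Real.exp (a * L / 40000) := by
    intro c hc hcL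
    have h1 : c ^ 4 ≤ Real.exp (a * L / 40000) ^ 4 := by
      refine hcL.trans ?_
      rw [← Real.exp_nat_mul, ← hexp]
      apply Real.exp_le_exp.2
      rw [hexp]
      push_cast
      linarith
    exact le_of_pow_le_pow_left₀ (by norm_num) (Real.exp_pos _).le h1
  refine ⟨?_, ?_, ?_, ?_, ?_, ?_, ?_⟩
  · refine hL3.trans ?_
    rw [← hexp]
    apply Real.exp_le_exp.2
    rw [hexp]
    linarith
  · have e1 : Real.exp (a * L / 4000) * L * (Real.exp (a * L / 4000) * L) =
        Real.exp (a * L / 4000 + a * L / 4000 + 2 * Real.log L) := by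
      rw [Real.exp_add, Real.exp_add]
      have := hpow 2
      push_cast at this
      rw [← this]
      ring
    rw [e1]
    apply Real.exp_le_exp.2
    linarith
  · have h1 : Real.exp 10 ≤ Real.exp (a * L / 1000) := by
      apply Real.exp_le_exp.2
      linarith
    have h2 := Real.add_one_le_exp (10 : ℝ)
    linarith
  · have h1 : (10 : ℝ) ^ 11 * (L ^ 3 / 4) ^ 3 ≤ L ^ 10 := by
      have e : (10 : ℝ) ^ 11 * (L ^ 3 / 4) ^ 3 = (10 ^ 11 / 64) * L ^ 9 := by ring
      rw [e, pow_succ L 9, mul_comm (L ^ 9)]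
      apply mul_le_mul_of_nonneg_right _ (by positivity)
      linarith
    have h2 := hpow 10
    push_cast at h2
    calc Real.exp (a * L / 1000) ^ 6 * Real.exp (L - a * L / 64) * (10 ^ 11 * (L ^ 3 / 4) ^ 3) ≤
        Real.exp (a * L / 1000) ^ 6 * Real.exp (L - a * L / 64) * L ^ 10 :=
          mul_le_mul_of_nonneg_left h1 (by positivity)
      _ = Real.exp (6 * (a * L / 1000) + (L - a * L / 64) + 10 * Real.log L) := by
          rw [h2, Real.exp_add, Real.exp_add, ← Real.exp_nat_mul]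
          push_cast
          rfl
      _ ≤ Real.exp (L - a * L / 8000) := by
          apply Real.exp_le_exp.2
          linarith
  · have h1 : Real.exp L * Real.exp (-(a * L / 8000)) = Real.exp (L - a * L / 8000) := by
      rw [← Real.exp_add]
      rfl
    have h2 : Real.exp (a * L / 2000) ≤ Real.exp (L - a * L / 8000) := by
      apply Real.exp_le_exp.2
      nlinarith
    rw [h1]
    nlinarith
  · have h1 := hquart (1 + 2 * C) (by linarith) hL2
    have e1 : Real.exp (L - a * L / 10 ^ 4) = Real.exp (a * L / 40000) * Real.exp (L - a * L / 8000) := by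
      rw [← Real.exp_add]
      congr 1
      ring
    rw [e1]
    exact mul_le_mul_of_nonneg_right h1 (Real.exp_pos _).le
  · have h1 := hquart 8 (by norm_num) (by linarith)
    have e1 : Real.exp (a * L / 8000) = Real.exp (a * L / 40000) * Real.exp (a * L / 10 ^ 4) := by
      rw [← Real.exp_add]
      congr 1
      ring
    rw [e1, le_div_iff₀ (by norm_num), mul_comm]
    exact mul_le_mul_of_nonneg_right h1 (Real.exp_pos _).le

/-- **Uniform bound.** -/
theorem uniform : ∃ X₀ : ℝ, ∀ X : ℝ, X₀ ≤ X → ∀ A : ℝ, 1 ≤ A →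
    10 ^ 4 * A ^ 2 * Real.log (Real.log X) ≤ Real.log X →
    ∃ E : Finset ℤ, (E.card : ℝ) ≤ X ^ (1 - 1 / (10 ^ 4 * A ^ 2)) ∧
    ∀ (K : Type) [Field K] [NumberField K], Module.finrank ℚ K = 2 →
      X < -(discr K : ℝ) → -(discr K : ℝ) ≤ 2 * X → discr K ∉ E →
      ∀ l : ℕ, Odd l → (l : ℝ) ≤ 1000 * A ^ 3 →
        X ^ (1 / (10 ^ 4 * A ^ 2)) * (Nat.card {c : ClassGroup (𝓞 K) // c ^ l = 1} : ℝ) ≤
          Nat.card (ClassGroup (𝓞 K)) := by
  obtain ⟨C, Y0, hC0, hY01, hsup⟩ := supplyD 1 le_rfl (1 / 2) (by norm_num) le_rfl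
  obtain ⟨L₀, hL₀⟩ : ∃ L₀ : ℝ, L₀ = max (10 ^ 11) (max ((1 + 2 * C) ^ 4) Y0) := ⟨_, rfl⟩
  refine ⟨Real.exp L₀, ?_⟩
  intro X hX A hA hAX
  have hX0 : 0 < X := (Real.exp_pos _).trans_le hX
  obtain ⟨L, hL⟩ : ∃ L, L = Real.log X := ⟨_, rfl⟩
  have hXL : X = Real.exp L := by rw [hL, Real.exp_log hX0]
  have hLL : L₀ ≤ L := by
    rw [hL, Real.le_log_iff_exp_le hX0]
    exact hX
  have hL1 : 10 ^ 11 ≤ L := (le_max_left _ _).trans (hL₀ ▸ hLL)
  have hL2 : (1 + 2 * C) ^ 4 ≤ L := (le_max_left _ _).trans ((le_max_right _ _).trans (hL₀ ▸ hLL))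
  have hL3 : Y0 ≤ L := (le_max_right _ _).trans ((le_max_right _ _).trans (hL₀ ▸ hLL))
  have hL0 : 0 < L := by linarith
  rw [← hL] at hAX
  have hT : 1 ≤ Real.log L := by
    rw [Real.le_log_iff_exp_le hL0]
    have := Real.exp_one_lt_d9
    linarith
  have hA0 : 0 < A := by linarith
  obtain ⟨a, ha⟩ : ∃ a : ℝ, a = 1 / A ^ 2 := ⟨_, rfl⟩
  have ha0 : 0 < a := by rw [ha]; positivity
  have ha1 : a ≤ 1 := by
    rw [ha, div_le_one (by positivity)]
    nlinarith
  have hAa : A ^ 2 * a = 1 := by rw [ha]; field_simp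
  have haL : 10 ^ 4 * Real.log L ≤ a * L := by
    have h1 := mul_le_mul_of_nonneg_left hAX ha0.le
    calc 10 ^ 4 * Real.log L = (A ^ 2 * a) * (10 ^ 4 * Real.log L) := by rw [hAa, one_mul]
      _ = a * (10 ^ 4 * A ^ 2 * Real.log L) := by ring
      _ ≤ a * L := h1
  obtain ⟨n1, n2, n3, n4, n5, n6, n7⟩ := numer hC0 hL1 hL2 hL3 ha0 ha1 haL
  have hrp : ∀ s : ℝ, X ^ s = Real.exp (s * L) := by
    intro s
    rw [Real.rpow_def_of_pos hX0, ← hL, mul_comm]
  obtain ⟨y, hy⟩ : ∃ y, y = Real.exp (a * L / 4000) := ⟨_, rfl⟩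
  have hy0 : 0 < y := by rw [hy]; exact Real.exp_pos _
  obtain ⟨B, hB⟩ : ∃ B, B = Real.exp (a * L / 1000) := ⟨_, rfl⟩
  have hB0 : 0 < B := by rw [hB]; exact Real.exp_pos _
  rw [← hy, ← hB] at n2
  rw [← hB] at n3 n4
  obtain ⟨z, hzy, hzc, hbad⟩ := hsup y (by rw [hy]; exact n1)
  -- the exceptional sets
  obtain ⟨S, hS⟩ : ∃ S : Finset ℤ, S = (Finset.Icc ⌈-(2 * X)⌉ ⌊-X⌋) := ⟨_, rfl⟩
  have hSm : ∀ D ∈ S, X ≤ |(D : ℝ)| ∧ |(D : ℝ)| ≤ X + X := by
    intro D hD
    rw [hS, Finset.mem_Icc, Int.ceil_le, Int.le_floor] at hD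
    rw [abs_of_nonpos (by linarith)]
    constructor <;> linarith [hD.1, hD.2]
  have hX1 : 1 ≤ X := by rw [hXL]; exact Real.one_le_exp hL0.le
  have hb := hbad X X hX0.le hX1 S hSm
  have hfin : {d : ℤ | X < d ∧ (d : ℝ) ≤ 2 * X ∧ ExcQ d (X ^ A) B L}.Finite := by
    refine (Set.finite_Icc ⌈X⌉ ⌊2 * X⌋).subset ?_
    rintro d ⟨h1, h2, -⟩
    exact ⟨Int.ceil_le.2 h1.le, Int.le_floor.2 h2⟩
  obtain ⟨m, hm⟩ : ∃ m : ℕ, m = ⌈3 * A ^ 2⌉₊ := ⟨_, rfl⟩
  have hm1 : 3 * A ^ 2 ≤ m := by rw [hm]; exact Nat.le_ceil _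
  have hm2 : (m : ℝ) ≤ 4 * A ^ 2 := by
    have h1 := Nat.ceil_lt_add_one (a := 3 * A ^ 2) (by positivity)
    rw [← hm] at h1
    nlinarith
  have hA2L : 8 * A ^ 2 ≤ L := by
    have : 10 ^ 4 * A ^ 2 * 1 ≤ 10 ^ 4 * A ^ 2 * Real.log L :=
      mul_le_mul_of_nonneg_left hT (by positivity)
    nlinarith
  have hm3 : 2 * (m : ℝ) ≤ L := by linarith
  have hm0 : (0 : ℝ) < m := by nlinarith
  have hXe : Real.exp 4096 ≤ X := by
    rw [hXL]
    exact Real.exp_le_exp.2 (by linarith)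
  have hcq := countq (D := X) (A := A) (B := B) (m := m) hXe hA hm1 (by rw [← hL]; exact hm3) hB0.le
    (by
      rw [hrp, hB]
      apply Real.exp_le_exp.2
      nlinarith)
  rw [← hL] at hcq
  have hcq2 : B ^ 6 * (X ^ (1 - 1 / (8 * (m : ℝ))) * (10 ^ 11 * X ^ (1 / (16 * (m : ℝ))) *
      ((m : ℝ) ^ 2 * L) ^ 3)) ≤ Real.exp (L - a * L / 8000) := by
    refine le_trans ?_ n4
    have e1 : X ^ (1 - 1 / (8 * (m : ℝ))) * X ^ (1 / (16 * (m : ℝ))) ≤ Real.exp (L - a * L / 64) := by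
      rw [hrp, hrp, ← Real.exp_add]
      apply Real.exp_le_exp.2
      have e2 : a / 64 ≤ 1 / (16 * (m : ℝ)) := by
        rw [ha, div_div, div_le_div_iff₀ (by positivity) (by positivity)]
        nlinarith
      have e3 : (1 - 1 / (8 * (m : ℝ))) * L + 1 / (16 * (m : ℝ)) * L = L - 1 / (16 * (m : ℝ)) * L := by
        field_simp
        ring
      rw [e3]
      have := mul_le_mul_of_nonneg_right e2 hL0.le
      linarith
    have e2 : (m : ℝ) ^ 2 * L ≤ L ^ 3 / 4 := by
      have h1 : (m : ℝ) ≤ L / 2 := by linarith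
      have h2 : (m : ℝ) ^ 2 ≤ (L / 2) ^ 2 := pow_le_pow_left₀ hm0.le h1 2
      calc (m : ℝ) ^ 2 * L ≤ (L / 2) ^ 2 * L := mul_le_mul_of_nonneg_right h2 hL0.le
        _ = L ^ 3 / 4 := by ring
    have e3 : ((m : ℝ) ^ 2 * L) ^ 3 ≤ (L ^ 3 / 4) ^ 3 := pow_le_pow_left₀ (by positivity) e2 3
    calc B ^ 6 * (X ^ (1 - 1 / (8 * (m : ℝ))) * (10 ^ 11 * X ^ (1 / (16 * (m : ℝ))) *
      ((m : ℝ) ^ 2 * L) ^ 3)) = B ^ 6 * (X ^ (1 - 1 / (8 * (m : ℝ))) * X ^ (1 / (16 * (m : ℝ)))) *
        (10 ^ 11 * ((m : ℝ) ^ 2 * L) ^ 3) := by ring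
      _ ≤ B ^ 6 * Real.exp (L - a * L / 64) * (10 ^ 11 * (L ^ 3 / 4) ^ 3) := by
          apply mul_le_mul _ _ (by positivity) (by positivity)
          · exact mul_le_mul_of_nonneg_left e1 (by positivity)
          · exact mul_le_mul_of_nonneg_left e3 (by positivity)
  have hy12 : y ^ ((1 : ℝ) - 1 / 2) = Real.exp (a * L / 8000) := by
    rw [hy, ← Real.exp_mul]
    congr 1
    ring
  have hy2 : y ^ (2 * 1) = Real.exp (a * L / 2000) := by
    rw [hy, ← Real.exp_nat_mul]
    congr 1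
    push_cast
    ring
  have hym : y ^ (-((1 - (1 : ℝ) / 2) * ((1 : ℕ) : ℝ))) = Real.exp (-(a * L / 8000)) := by
    rw [hy, ← Real.exp_mul]
    congr 1
    push_cast
    ring
  rw [hym, hy2] at hb
  rw [hy12] at hzc
  obtain ⟨E₁, hE₁⟩ : ∃ E₁, E₁ = S.filter (fun D => (((Qz z).filter (fun p => QR p D)).card : ℝ) <
      (Qz z).card / 8) := ⟨_, rfl⟩
  rw [← hE₁] at hb
  refine ⟨E₁ ∪ hfin.toFinset.image (fun d => -d), ?_, ?_⟩
  · have h1 : ((E₁ ∪ hfin.toFinset.image (fun d => -d)).card : ℝ) ≤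
        (E₁.card : ℝ) + (hfin.toFinset.card : ℝ) := by
      have := (Finset.card_union_le E₁ (hfin.toFinset.image (fun d => -d))).trans
        (Nat.add_le_add_left (Finset.card_image_le) _)
      exact_mod_cast this
    rw [Set.ncard_eq_toFinset_card _ hfin] at hcq
    have h2 : X ^ (1 - 1 / (10 ^ 4 * A ^ 2)) = Real.exp (L - a * L / 10 ^ 4) := by
      rw [hrp]
      congr 1
      rw [ha]
      field_simp
    rw [h2]
    refine le_trans ?_ n6
    have h3 : (E₁.card : ℝ) ≤ 2 * C * Real.exp (L - a * L / 8000) := by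
      refine hb.trans ?_
      rw [hXL]
      exact n5
    have h4 := hcq.trans hcq2
    linarith
  · intro K _ _ hK hK1 hK2 hKE l hl hlA
    have hDneg : discr K < 0 := by
      have : ((discr K : ℤ) : ℝ) < 0 := by linarith
      exact_mod_cast this
    have hDS : discr K ∈ S := by
      rw [hS, Finset.mem_Icc, Int.ceil_le, Int.le_floor]
      constructor <;> linarith
    rw [Finset.mem_union, not_or] at hKE
    obtain ⟨hK3, hK4⟩ := hKE
    have hP : ((Qz z).card : ℝ) / 8 ≤ (((Qz z).filter (fun p => QR p (discr K))).card : ℝ) := by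
      by_contra h
      apply hK3
      rw [hE₁, Finset.mem_filter]
      exact ⟨hDS, not_le.1 h⟩
    have hNE : ¬ ExcQ (-discr K) (X ^ A) B L := by
      intro h
      apply hK4
      rw [Finset.mem_image]
      refine ⟨-discr K, ?_, by ring⟩
      rw [Set.Finite.mem_toFinset]
      refine ⟨?_, ?_, h⟩
      · push_cast; exact hK1
      · push_cast; exact hK2
    have hl1 : 1 ≤ l := hl.pos
    have hmain := torsion_le hK hDneg hl1 ((Qz z).filter (fun p => QR p (discr K)))
      (fun p hp => by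
        rw [Finset.mem_filter] at hp
        exact ⟨(mem_Qz hp.1).1, hp.2⟩)
      (fun p hp q hq hpq n hn hrep => by
        rw [Finset.mem_filter] at hp hq
        obtain ⟨hpp, -, hpz⟩ := mem_Qz hp.1
        obtain ⟨hqp, -, hqz⟩ := mem_Qz hq.1
        have hpy : (p : ℝ) ≤ y := (Nat.cast_le.2 hpz).trans hzy
        have hqy : (q : ℝ) ≤ y := (Nat.cast_le.2 hqz).trans hzy
        have hp2 : p ≠ 2 := by
          rintro rfl
          obtain ⟨r, -, hr⟩ := hp.2
          apply hr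
          have : (2 : ZMod 2) = 0 := rfl
          rw [this, zero_mul]
        have hq2 : q ≠ 2 := by
          rintro rfl
          obtain ⟨r, -, hr⟩ := hq.2
          apply hr
          have : (2 : ZMod 2) = 0 := rfl
          rw [this, zero_mul]
        have hnR : (n : ℝ) ≤ 4 := by
          rcases hn with rfl | rfl <;> norm_num
        apply hNE
        refine ⟨(p * q) ^ l, n, pow_ne_zero _ (mul_ne_zero hpp.ne_zero hqp.ne_zero),
          ((hpp.odd_of_ne_two hp2).mul (hqp.odd_of_ne_two hq2)).pow, by omega, ?_, hnR.trans n3, ?_,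
          not_sq hpp hqp hpq hp2 hl hn, hrep⟩
        · have h1 : (((p * q) ^ l : ℕ) : ℝ) ≤ Real.exp (A * L / 2) := by
            push_cast
            calc ((p : ℝ) * q) ^ l ≤ (y * y) ^ l := by
                  apply pow_le_pow_left₀ (by positivity)
                  exact mul_le_mul hpy hqy (Nat.cast_nonneg _) hy0.le
              _ = Real.exp (l * (a * L / 2000)) := by
                  rw [hy, ← Real.exp_add, ← Real.exp_nat_mul]
                  congr 1
                  ring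
              _ ≤ Real.exp (A * L / 2) := by
                  apply Real.exp_le_exp.2
                  have h2 : (l : ℝ) * a ≤ 1000 * A := by
                    calc (l : ℝ) * a ≤ 1000 * A ^ 3 * a := mul_le_mul_of_nonneg_right hlA ha0.le
                      _ = 1000 * A * (A ^ 2 * a) := by ring
                      _ = 1000 * A := by rw [hAa, mul_one]
                  have h3 := mul_le_mul_of_nonneg_right h2 hL0.le
                  linarith
          have h2 : (4 : ℝ) ≤ Real.exp (A * L / 2) := by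
            have h3 := Real.add_one_le_exp (A * L / 2)
            have h4 : L ≤ A * L := le_mul_of_one_le_left hL0.le hA
            linarith
          have h3 : X ^ A = Real.exp (A * L / 2) * Real.exp (A * L / 2) := by
            rw [hrp, ← Real.exp_add]
            congr 1
            ring
          rw [h3]
          exact mul_le_mul h1 (hnR.trans h2) (Nat.cast_nonneg _) (Real.exp_pos _).le
        · rw [prod_two hpp hqp hpq (by omega)]
          refine le_trans ?_ n2
          apply mul_le_mul _ _ (by positivity) (by positivity)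
          · exact mul_le_mul_of_nonneg_right hpy hL0.le
          · exact mul_le_mul_of_nonneg_right hqy hL0.le)
    have h1 : X ^ (1 / (10 ^ 4 * A ^ 2)) ≤ (((Qz z).filter (fun p => QR p (discr K))).card : ℝ) := by
      have e1 : X ^ (1 / (10 ^ 4 * A ^ 2)) = Real.exp (a * L / 10 ^ 4) := by
        rw [hrp]
        congr 1
        rw [ha]
        field_simp
      rw [e1]
      refine n7.trans (le_trans ?_ hP)
      exact div_le_div_of_nonneg_right hzc (by norm_num)
    refine le_trans (mul_le_mul_of_nonneg_right h1 (Nat.cast_nonneg _)) ?_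
    exact_mod_cast hmain

end Pool.Agent.U916.GQ
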