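import Pool.Agent.U916.GQ.Uni
import Pool.Agent.U916.GT.Avg

/-!
# Classes of small split primes in imaginary quadratic fields
-/

set_option autoImplicit false

namespace Pool.Agent.U916.GQ

open NumberField Finset Pool.Agent.TH847.LG Pool.Agent.Y159.PT Pool.Agent.Y159.QS
open scoped nonZeroDivisors

variable {K : Type} [Field K] [NumberField K]

/-- a relation between two prime ideals of an imaginary quadratic field gives a representation -/
lemma im_rep (hK : Module.finrank ℚ K = 2) (hD : discr K < 0) {l : ℕ} (hl : 1 ≤ l)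
    {P J Q R : Ideal (𝓞 K)}
    {p q : ℕ} (hp : p.Prime) (hq : q.Prime) (hpq : p ≠ q) (hP : Ideal.absNorm P = p)
    (hPJ : P * J = Ideal.span {((p : ℕ) : 𝓞 K)}) (hQ : Ideal.absNorm Q = q)
    (hQR : Q * R = Ideal.span {((q : ℕ) : 𝓞 K)}) (hpD : QR p (discr K))
    (hqD : QR q (discr K)) {z : 𝓞 K} (hz : Ideal.span {z} = Q ^ l * J ^ l) :
    ∃ n : ℕ, (n = 1 ∨ n = 4) ∧ Rep ((p * q) ^ l) n (-discr K) := by
  classical
  have hpD' := Pool.Agent.U916.GT.qr_ndvd hp hpD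
  have hqD' := Pool.Agent.U916.GT.qr_ndvd hq hqD
  obtain ⟨Z, hZ⟩ : ∃ Z : ℝ, Z = (((p * q) ^ l : ℕ) : ℝ) + ∑ w : InfinitePlace K, w (z : K) := ⟨_, rfl⟩
  have hs0 : 0 ≤ ∑ w : InfinitePlace K, w (z : K) := Finset.sum_nonneg fun w _ => apply_nonneg _ _
  have hM1 : 1 ≤ (p * q) ^ l := Nat.one_le_pow _ _ (Nat.mul_pos hp.pos hq.pos)
  have hM1R : (1 : ℝ) ≤ (((p * q) ^ l : ℕ) : ℝ) := by exact_mod_cast hM1
  have hZM : (((p * q) ^ l : ℕ) : ℝ) ≤ Z := by rw [hZ]; linarith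
  have hZ2 : (((p * q) ^ l : ℕ) : ℝ) ≤ Z ^ 2 := by nlinarith
  have hw : ∀ w : InfinitePlace K, w (z : K) ≤ Z := by
    intro w
    have := Finset.single_le_sum (f := fun w : InfinitePlace K => w (z : K))
      (fun w _ => apply_nonneg _ _) (Finset.mem_univ w)
    rw [hZ]
    linarith
  have hc := coll_of_span hK hl hp hq hpq hP hPJ hQ hQR
    (fun h => hpD' (Int.natCast_dvd.2 h)) (fun h => hqD' (Int.natCast_dvd.2 h)) hz hZ2 hw
  have hDR : (0 : ℝ) < |((discr K : ℤ) : ℝ)| := by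
    rw [abs_pos]
    exact_mod_cast hD.ne
  obtain ⟨n, hn, x, y, hxy, hy, he, -, -⟩ :=
    Pool.Agent.U916.GT.coll_rep (by linarith) hDR le_rfl hZ2 hc
  have hpos : 0 < ((p * q : ℕ) : ℤ) ^ l * n := by
    rw [← he]
    have : 0 < (-discr K) * y ^ 2 := by
      apply mul_pos (by linarith)
      positivity
    nlinarith [sq_nonneg x]
  have hn0 : 0 < n := by
    by_contra h
    have h1 : (0 : ℤ) ≤ ((p * q : ℕ) : ℤ) ^ l := by positivity
    have h2 := mul_nonneg h1 (by linarith : 0 ≤ -n)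
    linarith
  have hcop : IsCoprime (-discr K) (((p * q) ^ l : ℕ) : ℤ) := by
    push_cast
    apply IsCoprime.pow_right
    apply IsCoprime.mul_right
    · rw [isCoprime_comm]
      apply (Int.prime_iff_natAbs_prime.2 _).coprime_iff_not_dvd.2
      · rw [dvd_neg]; exact hpD'
      · rw [Int.natAbs_natCast]; exact hp
    · rw [isCoprime_comm]
      apply (Int.prime_iff_natAbs_prime.2 _).coprime_iff_not_dvd.2
      · rw [dvd_neg]; exact hqD'
      · rw [Int.natAbs_natCast]; exact hq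
  have hnn : n = 1 ∨ n = 4 := by
    rcases hn with h | h | h | h
    · left; exact h
    · omega
    · right; exact h
    · omega
  refine ⟨n.toNat, by omega, x, y, hxy, hy, ?_, hcop⟩
  rw [he, Int.toNat_of_nonneg hn0.le]
  push_cast
  rfl

/-- classes whose `l`-th powers are distinct lie in distinct cosets of the `l`-torsion -/
lemma card_cosets {G : Type*} [CommGroup G] [Finite G] (l : ℕ) (S : Finset ℕ) (c : ℕ → G)
    (hc : ∀ p ∈ S, ∀ q ∈ S, p ≠ q → c p ^ l ≠ c q ^ l) :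
    S.card * Nat.card {g : G // g ^ l = 1} ≤ Nat.card G := by
  have h1 : Nat.card ({p // p ∈ S} × {g : G // g ^ l = 1}) ≤ Nat.card G := by
    apply Nat.card_le_card_of_injective (fun x : {p // p ∈ S} × {g : G // g ^ l = 1} => c x.1 * x.2.1)
    rintro ⟨⟨p, hp⟩, g, hg⟩ ⟨⟨q, hq⟩, g', hg'⟩ h
    simp only at h
    have hpq : p = q := by
      by_contra hne
      apply hc p hp q hq hne
      have := congrArg (fun t => t ^ l) h
      simp only [mul_pow, hg, hg', mul_one] at this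
      exact this
    subst hpq
    have : g = g' := mul_left_cancel h
    subst this
    rfl
  rwa [Nat.card_prod, Nat.card_eq_fintype_card, Fintype.card_coe] at h1

/-- if no product of two of the primes is represented, then the `l`-torsion is small -/
theorem torsion_le (hK : Module.finrank ℚ K = 2) (hD : discr K < 0) {l : ℕ} (hl : 1 ≤ l)
    (S : Finset ℕ) (hS : ∀ p ∈ S, p.Prime ∧ QR p (discr K))
    (hno : ∀ p ∈ S, ∀ q ∈ S, p ≠ q → ∀ n : ℕ, (n = 1 ∨ n = 4) → ¬ Rep ((p * q) ^ l) n (-discr K)) :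
    S.card * Nat.card {c : ClassGroup (𝓞 K) // c ^ l = 1} ≤ Nat.card (ClassGroup (𝓞 K)) := by
  classical
  have hex : ∀ p : ℕ, ∃ P J : (Ideal (𝓞 K))⁰, p ∈ S → Ideal.absNorm (P : Ideal (𝓞 K)) = p ∧
      (P : Ideal (𝓞 K)) * (J : Ideal (𝓞 K)) = Ideal.span {((p : ℕ) : 𝓞 K)} := by
    intro p
    by_cases hp : p ∈ S
    · obtain ⟨hpp, r, hr1, hr2⟩ := hS p hp
      obtain ⟨P, hP⟩ := norm_of_qr hK hpp r hr1 hr2
      have hdvd : P ∣ Ideal.span {((p : ℕ) : 𝓞 K)} := by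
        rw [Ideal.dvd_iff_le, Ideal.span_le, Set.singleton_subset_iff, SetLike.mem_coe]
        have := Ideal.absNorm_mem P
        rwa [hP] at this
      obtain ⟨J, hJ⟩ := hdvd
      have hsp : Ideal.span {((p : ℕ) : 𝓞 K)} ≠ 0 := by
        rw [Ne, Ideal.zero_eq_bot, Ideal.span_singleton_eq_bot]
        exact_mod_cast hpp.ne_zero
      have hP0 : P ≠ 0 := by
        rintro rfl
        rw [zero_mul] at hJ
        exact hsp hJ
      have hJ0 : J ≠ 0 := by
        rintro rfl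
        rw [mul_zero] at hJ
        exact hsp hJ
      exact ⟨⟨P, mem_nonZeroDivisors_of_ne_zero hP0⟩, ⟨J, mem_nonZeroDivisors_of_ne_zero hJ0⟩,
        fun _ => ⟨hP, hJ.symm⟩⟩
    · exact ⟨1, 1, fun h => absurd h hp⟩
  choose P J hPJ using hex
  apply card_cosets l S (fun p => ClassGroup.mk0 (P p))
  intro p hp q hq hpq heq
  obtain ⟨hP, hPJ'⟩ := hPJ p hp
  obtain ⟨hQ, hQR'⟩ := hPJ q hq
  have hJ1 : ClassGroup.mk0 (P p) * ClassGroup.mk0 (J p) = 1 := by
    rw [← map_mul, ClassGroup.mk0_eq_one_iff]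
    rw [Submonoid.coe_mul, hPJ']
    exact ⟨⟨_, rfl⟩⟩
  have hpr : ClassGroup.mk0 (P q ^ l * J p ^ l) = 1 := by
    rw [map_mul, map_pow, map_pow, ← heq, ← mul_pow, hJ1, one_pow]
  rw [ClassGroup.mk0_eq_one_iff] at hpr
  obtain ⟨⟨z, hz⟩⟩ := hpr
  have hz' : Ideal.span {z} = (P q : Ideal (𝓞 K)) ^ l * (J p : Ideal (𝓞 K)) ^ l := by
    have h1 : ((P q ^ l * J p ^ l : (Ideal (𝓞 K))⁰) : Ideal (𝓞 K)) =
        (P q : Ideal (𝓞 K)) ^ l * (J p : Ideal (𝓞 K)) ^ l := by
      rw [Submonoid.coe_mul, SubmonoidClass.coe_pow, SubmonoidClass.coe_pow]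
    rw [← h1, hz]
  obtain ⟨n, hn, hrep⟩ := im_rep hK hD hl (hS p hp).1 (hS q hq).1 hpq hP hPJ' hQ hQR'
    (hS p hp).2 (hS q hq).2 hz'
  exact hno p hp q hq hpq n hn hrep

end Pool.Agent.U916.GQ
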