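import Pool.Agent.U916.GQ.Par

/-!
# A polynomial which is not a square
-/

set_option autoImplicit false

namespace Pool.Agent.U916.GQ

open Polynomial Pool.Agent.W223.HZ Pool.Agent.W223.PL

theorem nsqL (P Q : ℤ[X]) (a b n : ℤ) (ha : a ≠ 0)
    (hcop : IsCoprime (P.map (Int.castRingHom ℚ)) (Q.map (Int.castRingHom ℚ))) (hn : ¬ IsSquare n) :
    NonSq (C n * (Q ^ 2 - (C b + C a * X) * P ^ 2)) := by
  intro P₁ P₂ hne h0
  have haQ : (a : ℚ) ≠ 0 := Int.cast_ne_zero.2 ha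
  have hn0 : (n : ℚ) ≠ 0 := by
    intro h
    exact hn (by rw [Int.cast_eq_zero.mp h]; exact IsSquare.zero)
  obtain ⟨φ, hφ⟩ : ∃ φ, φ = Int.castRingHom ℚ := ⟨_, rfl⟩
  have hinj : Function.Injective (Polynomial.map φ) := by
    rw [hφ]
    exact Polynomial.map_injective _ Int.cast_injective
  rw [← hφ] at hcop
  obtain ⟨p, hp⟩ : ∃ p, p = P.map φ := ⟨_, rfl⟩
  obtain ⟨q, hq⟩ : ∃ q, q = Q.map φ := ⟨_, rfl⟩
  obtain ⟨p₁, hp₁⟩ : ∃ p, p = P₁.map φ := ⟨_, rfl⟩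
  obtain ⟨p₂, hp₂⟩ : ∃ p, p = P₂.map φ := ⟨_, rfl⟩
  obtain ⟨ρ, hρ⟩ : ∃ ρ : ℚ, ρ = -(b : ℚ) / a := ⟨_, rfl⟩
  have hbρ : (b : ℚ) + a * ρ = 0 := by
    rw [hρ]
    field_simp
    ring
  have hlin : (C (b : ℚ) + C (a : ℚ) * X : ℚ[X]) = C (a : ℚ) * (X - C ρ) := by
    have : (C (b : ℚ) : ℚ[X]) = - (C (a : ℚ) * C ρ) := by
      rw [← C_mul, ← C_neg]
      congr 1
      linarith
    rw [this]
    ring
  have hE : p₁ ^ 2 = p₂ ^ 2 * (C (n : ℚ) * (q ^ 2 - (C (b : ℚ) + C (a : ℚ) * X) * p ^ 2)) := by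
    have h1 := congrArg (Polynomial.map φ) (sub_eq_zero.mp h0)
    simp only [Polynomial.map_pow, Polynomial.map_mul, Polynomial.map_sub, Polynomial.map_add,
      Polynomial.map_C, Polynomial.map_X] at h1
    rw [hp, hq, hp₁, hp₂, h1, hφ]
    simp
  have hp₂0 : p₂ ≠ 0 := by
    intro h
    have h1 : P₂ = 0 := by
      apply hinj
      rw [← hp₂, h, Polynomial.map_zero]
    rw [h, zero_pow two_ne_zero, zero_mul] at hE
    have h2 : P₁ = 0 := by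
      apply hinj
      rw [← hp₁, Polynomial.map_zero]
      exact pow_eq_zero_iff two_ne_zero |>.mp hE
    rcases hne with h3 | h3
    · exact h3 h2
    · exact h3 h1
  have hdvd : p₂ ∣ p₁ := (IsIntegrallyClosed.pow_dvd_pow_iff two_ne_zero).mp ⟨_, hE⟩
  obtain ⟨w, hw⟩ := hdvd
  have hW : w ^ 2 = C (n : ℚ) * (q ^ 2 - (C (b : ℚ) + C (a : ℚ) * X) * p ^ 2) := by
    have h1 : p₂ ^ 2 * w ^ 2 = p₂ ^ 2 * (C (n : ℚ) * (q ^ 2 - (C (b : ℚ) + C (a : ℚ) * X) * p ^ 2)) := by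
      rw [← hE, hw]; ring
    exact mul_left_cancel₀ (pow_ne_zero 2 hp₂0) h1
  have e1 := congrArg (Polynomial.eval ρ) hW
  simp only [eval_pow, eval_mul, eval_sub, eval_add, eval_C, eval_X] at e1
  have e2 : (eval ρ w) ^ 2 = (n : ℚ) * (eval ρ q) ^ 2 := by
    rw [e1, hbρ]; ring
  have hq0 : eval ρ q = 0 := by
    by_contra h
    apply hn
    rw [← Rat.isSquare_intCast_iff]
    refine ⟨eval ρ w / eval ρ q, ?_⟩
    field_simp
    rw [e2]
  have hw0 : eval ρ w = 0 := by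
    rw [hq0] at e2
    have : (eval ρ w) ^ 2 = 0 := by rw [e2]; ring
    exact pow_eq_zero_iff two_ne_zero |>.mp this
  obtain ⟨q', hq'⟩ := dvd_iff_isRoot.mpr (show IsRoot q ρ from hq0)
  obtain ⟨w', hw'⟩ := dvd_iff_isRoot.mpr (show IsRoot w ρ from hw0)
  have hX0 : (X - C ρ : ℚ[X]) ≠ 0 := X_sub_C_ne_zero _
  have hV : (X - C ρ) * w' ^ 2 =
      C (n : ℚ) * ((X - C ρ) * q' ^ 2 - C (a : ℚ) * p ^ 2) := by
    apply mul_left_cancel₀ hX0
    have h1 := hW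
    rw [hq', hw', hlin] at h1
    linear_combination h1
  have e3 := congrArg (Polynomial.eval ρ) hV
  simp only [eval_pow, eval_mul, eval_sub, eval_C, eval_X, sub_self, zero_mul, zero_sub] at e3
  have hp0 : eval ρ p = 0 := by
    have h1 : ((n : ℚ) * a) * (eval ρ p) ^ 2 = 0 := by
      linarith
    rcases mul_eq_zero.mp h1 with h2 | h2
    · rcases mul_eq_zero.mp h2 with h3 | h3
      · exact absurd h3 hn0
      · exact absurd h3 haQ
    · exact pow_eq_zero_iff two_ne_zero |>.mp h2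
  obtain ⟨a', b', hab⟩ := hcop
  have e4 := congrArg (Polynomial.eval ρ) hab
  rw [← hp, ← hq] at e4
  simp only [eval_add, eval_mul, hp0, hq0, mul_zero, add_zero, eval_one] at e4
  exact zero_ne_one e4

end Pool.Agent.U916.GQ
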