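import Pool.Agent.U916.GQ.Siz

/-!
# The determinants vanish
-/

set_option autoImplicit false

namespace Pool.Agent.U916.GQ

open Pool.Agent.W223.HZ

lemma log_small {l : ℝ} (hl : 4096 ≤ l) : Real.log l ≤ l / 32 := by
  have h0 : 0 < l := by linarith
  have h1 : Real.log l = 2 * Real.log (√l) := by
    rw [Real.log_sqrt h0.le]
    ring
  have h2 : Real.log (√l) ≤ √l - 1 := Real.log_le_sub_one_of_pos (Real.sqrt_pos.2 h0)
  have h3 : 64 ≤ √l := by
    rw [Real.le_sqrt (by norm_num) h0.le]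
    linarith
  have h4 : √l * √l = l := Real.mul_self_sqrt h0.le
  nlinarith

/-- the exponent of the modulus -/
noncomputable def th (D : ℝ) (m M : ℕ) : ℝ := (1 - 1 / (8 * (m : ℝ))) * Real.log D / Real.log M

/-- the inequality between the size of the determinant and its divisor -/
theorem ineq {D A : ℝ} {m M n : ℕ} (hD : Real.exp 4096 ≤ D) (hA : 1 ≤ A) (hm : 3 * A ^ 2 ≤ m)
    (hml : 2 * (m : ℝ) ≤ Real.log D) (hM : M ≠ 0) (hn : n ≠ 0) (hN : (M : ℝ) * n ≤ D ^ A)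
    (hn2 : (n : ℝ) ≤ D ^ ((1 : ℝ) / 16)) (hND : D ≤ (M : ℝ) * n) :
    ((2 * m).factorial : ℝ) * ((√((M : ℝ) * n) * √((M : ℝ) * n / D)) ^ m *
      (D ^ (1 / (8 * (m : ℝ)))) ^ (m * (m - 1))) <
      ((∏ j : Fin m, (Int.gcd M ((RR (th D m M) M : ℤ) ^ (m - j)) : ℤ) : ℤ) : ℝ) := by
  have hD0 : 0 < D := (Real.exp_pos _).trans_le hD
  obtain ⟨l, hl⟩ : ∃ l, l = Real.log D := ⟨_, rfl⟩
  rw [← hl] at hml
  have hl0 : 4096 ≤ l := by
    rw [hl, Real.le_log_iff_exp_le hD0]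
    exact hD
  have hDe : D = Real.exp l := by rw [hl, Real.exp_log hD0]
  have hm3 : (3 : ℝ) ≤ m := by nlinarith
  have hm1 : 1 ≤ m := by
    have : (0 : ℝ) < m := by linarith
    have : 0 < m := by exact_mod_cast this
    omega
  have hm0 : (0 : ℝ) < m := by linarith
  have hMR : (0 : ℝ) < M := by exact_mod_cast Nat.pos_of_ne_zero hM
  have hnR : (0 : ℝ) < n := by exact_mod_cast Nat.pos_of_ne_zero hn
  have hn1 : (1 : ℝ) ≤ n := by exact_mod_cast Nat.one_le_iff_ne_zero.2 hn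
  obtain ⟨lM, hlM⟩ : ∃ a, a = Real.log M := ⟨_, rfl⟩
  obtain ⟨ln, hln⟩ : ∃ a, a = Real.log n := ⟨_, rfl⟩
  have hln0 : 0 ≤ ln := by rw [hln]; exact Real.log_nonneg hn1
  have hln1 : ln ≤ l / 16 := by
    have := Real.log_le_log hnR hn2
    rw [Real.log_rpow hD0, ← hl, ← hln] at this
    linarith
  have hlN : lM + ln ≤ A * l := by
    have := Real.log_le_log (by positivity) hN
    rw [Real.log_rpow hD0, Real.log_mul hMR.ne' hnR.ne', ← hl, ← hln, ← hlM] at this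
    exact this
  have hlND : l ≤ lM + ln := by
    have := Real.log_le_log hD0 hND
    rw [Real.log_mul hMR.ne' hnR.ne', ← hl, ← hln, ← hlM] at this
    exact this
  have hlM0 : 0 < lM := by linarith
  have hlMA : lM ≤ A * l := by linarith
  obtain ⟨lam, hlam⟩ : ∃ a, a = (1 - 1 / (8 * (m : ℝ))) * l := ⟨_, rfl⟩
  have hlam1 : 7 / 8 * l ≤ lam := by
    rw [hlam]
    have : 1 / (8 * (m : ℝ)) ≤ 1 / 8 := by
      apply one_div_le_one_div_of_le (by norm_num)
      linarith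
    nlinarith
  have hlam0 : 0 < lam := by linarith
  have hth : th D m M = lam / lM := by rw [th, ← hl, ← hlM, hlam]
  have hth0 : 0 < th D m M := by rw [hth]; positivity
  -- the right side
  have hR : Real.exp ((m : ℝ) * lM - lM ^ 2 / (2 * lam)) ≤
      ((∏ j : Fin m, (Int.gcd M ((RR (th D m M) M : ℤ) ^ (m - j)) : ℤ) : ℤ) : ℝ) := by
    push_cast
    have e1 : ∏ j : Fin m, (M : ℝ) ^ (min 1 (((m - (j : ℕ) : ℕ) : ℝ) * th D m M)) ≤
        ∏ j : Fin m, ((Int.gcd M ((RR (th D m M) M : ℤ) ^ (m - (j : ℕ))) : ℕ) : ℝ) := by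
      apply Finset.prod_le_prod
      · intro j _
        positivity
      · intro j _
        have e2 : Int.gcd M ((RR (th D m M) M : ℤ) ^ (m - (j : ℕ))) =
            Nat.gcd M (RR (th D m M) M ^ (m - (j : ℕ))) := by
          rw [← Int.gcd_natCast_natCast]
          push_cast
          rfl
        rw [e2]
        exact le_gcd hM _
    refine le_trans ?_ e1
    have e3 : ∏ j : Fin m, (M : ℝ) ^ (min 1 (((m - (j : ℕ) : ℕ) : ℝ) * th D m M)) =
        Real.exp ((∑ j : Fin m, min 1 (((m - (j : ℕ) : ℕ) : ℝ) * th D m M)) * lM) := by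
      rw [← Real.rpow_sum_of_pos hMR, Real.rpow_def_of_pos hMR, ← hlM, mul_comm]
    rw [e3]
    apply Real.exp_le_exp.2
    have e4 := sum_min hth0 m
    have e5 : ((m : ℝ) - 1 / (2 * th D m M)) * lM = m * lM - lM ^ 2 / (2 * lam) := by
      rw [hth]
      field_simp
    rw [← e5]
    exact mul_le_mul_of_nonneg_right e4 hlM0.le
  -- the left side
  have hL : ((2 * m).factorial : ℝ) * ((√((M : ℝ) * n) * √((M : ℝ) * n / D)) ^ m *
      (D ^ (1 / (8 * (m : ℝ)))) ^ (m * (m - 1))) ≤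
      Real.exp (m * l / 16 + m * (lM + ln - l / 2) + (m - 1) * l / 8) := by
    have e1 : ((2 * m).factorial : ℝ) ≤ Real.exp (m * l / 16) := by
      have e2 : ((2 * m).factorial : ℝ) ≤ ((2 * m : ℕ) : ℝ) ^ (2 * m) := by
        exact_mod_cast Nat.factorial_le_pow (2 * m)
      refine e2.trans ?_
      have e3 : ((2 * m : ℕ) : ℝ) ≤ Real.exp (l / 32) := by
        push_cast
        have e4 := log_small hl0
        have e5 : l ≤ Real.exp (l / 32) := by
          rw [← Real.log_le_iff_le_exp (by linarith)]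
          exact e4
        linarith
      calc ((2 * m : ℕ) : ℝ) ^ (2 * m) ≤ (Real.exp (l / 32)) ^ (2 * m) :=
            pow_le_pow_left₀ (Nat.cast_nonneg _) e3 _
        _ = Real.exp (m * l / 16) := by
            rw [← Real.exp_nat_mul]
            congr 1
            push_cast
            ring
    have e6 : √((M : ℝ) * n) * √((M : ℝ) * n / D) = Real.exp (lM + ln - l / 2) := by
      have hMn : (M : ℝ) * n = Real.exp (lM + ln) := by
        rw [Real.exp_add, hlM, hln, Real.exp_log hMR, Real.exp_log hnR]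
      rw [← Real.sqrt_mul (by positivity), hMn, hDe, ← Real.exp_sub, ← Real.exp_add,
        ← Real.exp_half]
      congr 1
      ring
    have e7 : (D ^ (1 / (8 * (m : ℝ)))) ^ (m * (m - 1)) = Real.exp ((m - 1) * l / 8) := by
      rw [hDe, ← Real.exp_mul, ← Real.exp_nat_mul]
      congr 1
      push_cast [Nat.cast_sub hm1]
      field_simp
    rw [e6, e7, ← Real.exp_nat_mul, ← Real.exp_add, add_assoc, Real.exp_add (m * l / 16)]
    exact mul_le_mul_of_nonneg_right e1 (Real.exp_pos _).le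
  refine hL.trans_lt (lt_of_lt_of_le ?_ hR)
  apply Real.exp_lt_exp.2
  have f1 : lM ^ 2 / (2 * lam) ≤ 4 / 21 * (m * l) := by
    rw [div_le_iff₀ (by positivity)]
    have g1 : lM ^ 2 ≤ (A * l) ^ 2 := pow_le_pow_left₀ hlM0.le hlMA 2
    have g2 : (A * l) ^ 2 ≤ m / 3 * l ^ 2 := by
      have : A ^ 2 ≤ m / 3 := by linarith
      calc (A * l) ^ 2 = A ^ 2 * l ^ 2 := by ring
        _ ≤ _ := mul_le_mul_of_nonneg_right this (by positivity)
    have g3 : (m : ℝ) / 3 * l ^ 2 ≤ 4 / 21 * (m * l) * (2 * lam) := by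
      have : (m : ℝ) * l * (7 / 8 * l) ≤ m * l * lam := mul_le_mul_of_nonneg_left hlam1 (by positivity)
      nlinarith
    linarith
  have hml0 : 0 < (m : ℝ) * l := by positivity
  have hmln : (m : ℝ) * ln ≤ m * (l / 16) := mul_le_mul_of_nonneg_left hln1 hm0.le
  nlinarith

/-- **the determinants vanish** -/
theorem vanish {D A : ℝ} {m M n : ℕ} (hD : Real.exp 4096 ≤ D) (hA : 1 ≤ A) (hm : 3 * A ^ 2 ≤ m)
    (hml : 2 * (m : ℝ) ≤ Real.log D) (hM : M ≠ 0) (hn : n ≠ 0) (hN : (M : ℝ) * n ≤ D ^ A)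
    (hn2 : (n : ℝ) ≤ D ^ ((1 : ℝ) / 16)) (hND : D ≤ (M : ℝ) * n)
    (hθ : 0 < th D m M) (d₀ s u : ℤ) (x y σ : Fin m ⊕ Fin m → ℤ)
    (hs : (rad M : ℤ) ∣ s ^ 2 + d₀) (hu : (rad M : ℤ) ∣ 1 + 2 * s * u)
    (heq : ∀ i, x i ^ 2 + (d₀ + RR (th D m M) M * σ i) * y i ^ 2 = M * n)
    (hcop : ∀ i, IsCoprime (2 * s * y i) (rad M : ℤ)) (hxy : ∀ i, (rad M : ℤ) ∣ x i - s * y i)
    (hd : ∀ i, D ≤ ((d₀ + RR (th D m M) M * σ i : ℤ) : ℝ))
    (hσ : ∀ i, |(σ i : ℝ)| ≤ D ^ (1 / (8 * (m : ℝ)))) :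
    (Mat m x y σ).det = 0 := by
  have hD0 : 0 < D := (Real.exp_pos _).trans_le hD
  obtain ⟨R, hR⟩ : ∃ R : ℤ, R = RR (th D m M) M := ⟨_, rfl⟩
  have hPR : (rad M : ℤ) ∣ R := by
    rw [hR]
    exact_mod_cast rad_dvd_RR hθ M
  have h1 : ∀ i, (M : ℤ) ∣ x i - (HH s u d₀ M).eval (R * σ i) * y i := by
    intro i
    refine point_congr (P := (rad M : ℤ)) (Dvd.dvd.mul_right hPR _) hs hu ?_ (hxy i) (hcop i) ?_
    · exact_mod_cast dvd_rad_pow hM
    · rw [hR, heq i]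
      exact Dvd.intro _ rfl
  have h2 := det_dvd m M R (HH s u d₀ M) x y σ h1
  have hx : ∀ i, |(x i : ℝ)| ≤ √((M : ℝ) * n) := by
    intro i
    have e1 : (x i : ℝ) ^ 2 + ((d₀ + RR (th D m M) M * σ i : ℤ) : ℝ) * (y i : ℝ) ^ 2 = M * n := by
      exact_mod_cast heq i
    apply Real.abs_le_sqrt
    have := hd i
    nlinarith [sq_nonneg (y i : ℝ)]
  have hy : ∀ i, |(y i : ℝ)| ≤ √((M : ℝ) * n / D) := by
    intro i
    have e1 : (x i : ℝ) ^ 2 + ((d₀ + RR (th D m M) M * σ i : ℤ) : ℝ) * (y i : ℝ) ^ 2 = M * n := by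
      exact_mod_cast heq i
    apply Real.abs_le_sqrt
    rw [le_div_iff₀ hD0]
    have := hd i
    nlinarith [sq_nonneg (x i : ℝ), sq_nonneg (y i : ℝ)]
  have h3 := det_le m x y σ (Real.sqrt_nonneg _) (Real.sqrt_nonneg _) hx hy hσ
  have h4 := ineq hD hA hm hml hM hn hN hn2 hND
  rw [← hR] at h4
  have h5 := h3.trans_lt h4
  apply Int.eq_zero_of_abs_lt_dvd h2
  have h6 : ((|(Mat m x y σ).det| : ℤ) : ℝ) <
      ((∏ j : Fin m, (Int.gcd M (R ^ (m - j)) : ℤ) : ℤ) : ℝ) := by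
    rw [Int.cast_abs]
    exact h5
  exact_mod_cast h6

end Pool.Agent.U916.GQ
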