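import Pool.Agent.U916.GQ.Nsq

/-!
# Few radicands in one residue class
-/

set_option autoImplicit false

namespace Pool.Agent.U916.GQ

open Polynomial Pool.Agent.W223.HZ Pool.Agent.W223.PL Pool.Agent.Q276.PL Pool.Agent.Q121.PL

theorem deg_L (A B : ℤ[X]) (a b : ℤ) (m : ℕ) (hA : A.natDegree < m) (hB : B.natDegree < m) :
    (B ^ 2 - (C b + C a * X) * A ^ 2).natDegree ≤ 2 * m := by
  refine (Polynomial.natDegree_sub_le _ _).trans (max_le ?_ ?_)
  · refine Polynomial.natDegree_pow_le.trans ?_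
    omega
  · refine Polynomial.natDegree_mul_le.trans ?_
    have h1 : (C b + C a * X : ℤ[X]).natDegree ≤ 1 := by
      refine (Polynomial.natDegree_add_le _ _).trans (max_le ?_ ?_)
      · rw [Polynomial.natDegree_C]
        exact Nat.zero_le _
      · exact (Polynomial.natDegree_C_mul_le _ _).trans Polynomial.natDegree_X_le
    have h2 : (A ^ 2).natDegree ≤ 2 * A.natDegree := Polynomial.natDegree_pow_le
    omega

/-- the bound of all sizes -/
theorem size_bnd {D A : ℝ} {m : ℕ} (hD : Real.exp 4096 ≤ D) (hA : 1 ≤ A) (hm : 3 * A ^ 2 ≤ m)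
    (hml : 2 * (m : ℝ) ≤ Real.log D) :
    D ^ A * (m * (2 * m * D ^ (A + 2)) ^ (2 * m) * (D ^ (1 / (8 * (m : ℝ)))) ^ m) ≤
      Real.exp (40 * (m : ℝ) ^ 2 * Real.log D) := by
  have hD0 : 0 < D := (Real.exp_pos _).trans_le hD
  obtain ⟨l, hl⟩ : ∃ l, l = Real.log D := ⟨_, rfl⟩
  rw [← hl] at hml ⊢
  have hl0 : 4096 ≤ l := by
    rw [hl, Real.le_log_iff_exp_le hD0]
    exact hD
  have hDe : D = Real.exp l := by rw [hl, Real.exp_log hD0]
  have hm3 : (3 : ℝ) ≤ m := by nlinarith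
  have hAm : A ≤ m := by nlinarith
  have h2m : 2 * (m : ℝ) ≤ Real.exp l := by
    have := Real.add_one_le_exp l
    linarith
  have hm1 : (m : ℝ) ≤ Real.exp l := by linarith
  have e1 : (2 * (m : ℝ) * D ^ (A + 2)) ^ (2 * m) ≤ Real.exp (2 * m * (l + l * (A + 2))) := by
    have : 2 * (m : ℝ) * D ^ (A + 2) ≤ Real.exp (l + l * (A + 2)) := by
      rw [Real.exp_add, hDe, ← Real.exp_mul]
      exact mul_le_mul_of_nonneg_right h2m (Real.exp_pos _).le
    refine (pow_le_pow_left₀ (by positivity) this _).trans (le_of_eq ?_)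
    rw [← Real.exp_nat_mul]
    push_cast
    rfl
  have e2 : (D ^ (1 / (8 * (m : ℝ)))) ^ m ≤ Real.exp l := by
    rw [hDe, ← Real.exp_mul, ← Real.exp_nat_mul]
    apply Real.exp_le_exp.2
    have : (m : ℝ) * (l * (1 / (8 * m))) = l / 8 := by
      field_simp
    rw [this]
    linarith
  have e3 : D ^ A = Real.exp (l * A) := by rw [hDe, ← Real.exp_mul]
  rw [e3]
  calc Real.exp (l * A) * (m * (2 * m * D ^ (A + 2)) ^ (2 * m) * (D ^ (1 / (8 * (m : ℝ)))) ^ m)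
      ≤ Real.exp (l * A) * (Real.exp l * Real.exp (2 * m * (l + l * (A + 2))) * Real.exp l) := by
        gcongr
    _ = Real.exp (l * A + l + 2 * m * (l + l * (A + 2)) + l) := by
        rw [← Real.exp_add, ← Real.exp_add, ← Real.exp_add]
        congr 1
        ring
    _ ≤ Real.exp (40 * (m : ℝ) ^ 2 * l) := by
        apply Real.exp_le_exp.2
        have f0 : A ≤ (m : ℝ) ^ 2 := by nlinarith
        have f1 : l * A ≤ m ^ 2 * l := by
          rw [mul_comm]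
          exact mul_le_mul_of_nonneg_right f0 (by linarith)
        have f2 : l ≤ (m : ℝ) ^ 2 * l := by nlinarith
        have f3 : 2 * (m : ℝ) * (l + l * (A + 2)) ≤ 2 * m * (l * (3 * m)) := by
          have : l + l * (A + 2) ≤ l * (3 * m) := by nlinarith
          exact mul_le_mul_of_nonneg_left this (by positivity)
        nlinarith

/-- few radicands in one residue class modulo the modulus, with one root of `- d₀` -/
theorem pinq {D A : ℝ} {m M n : ℕ} (hD : Real.exp 4096 ≤ D) (hA : 1 ≤ A) (hm : 3 * A ^ 2 ≤ m)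
    (hml : 2 * (m : ℝ) ≤ Real.log D) (hM : M ≠ 0) (hn : n ≠ 0) (hN : (M : ℝ) * n ≤ D ^ A)
    (hn2 : (n : ℝ) ≤ D ^ ((1 : ℝ) / 16)) (hND : D ≤ (M : ℝ) * n)
    (hθ : 0 < th D m M) (hsq : ¬ IsSquare ((M * n : ℕ) : ℤ)) (d₀ s u : ℤ)
    (hs : (rad M : ℤ) ∣ s ^ 2 + d₀) (hu : (rad M : ℤ) ∣ 1 + 2 * s * u)
    (T : Finset ℤ) (x y : ℤ → ℤ)
    (heq : ∀ σ ∈ T, x σ ^ 2 + (d₀ + RR (th D m M) M * σ) * y σ ^ 2 = M * n)
    (hxy1 : ∀ σ ∈ T, IsCoprime (x σ) (y σ)) (hy1 : ∀ σ ∈ T, 1 ≤ y σ)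
    (hcop : ∀ σ ∈ T, IsCoprime (2 * s * y σ) (rad M : ℤ))
    (hxy : ∀ σ ∈ T, (rad M : ℤ) ∣ x σ - s * y σ)
    (hd : ∀ σ ∈ T, D ≤ ((d₀ + RR (th D m M) M * σ : ℤ) : ℝ))
    (hσ : ∀ σ ∈ T, |(σ : ℝ)| ≤ D ^ (1 / (8 * (m : ℝ)))) :
    (T.card : ℝ) ≤ 10 ^ 11 * D ^ (1 / (16 * (m : ℝ))) * ((m : ℝ) ^ 2 * Real.log D) ^ 3 := by
  have hMIN : StmtMIN := Pool.Agent.Q182.PL.min
  have hCUQ : StmtCUQ := cuq_true
  have hD0 : 0 < D := (Real.exp_pos _).trans_le hD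
  have hl0 : 4096 ≤ Real.log D := by
    rw [Real.le_log_iff_exp_le hD0]
    exact hD
  have hm3 : (3 : ℝ) ≤ m := by nlinarith
  have hm1 : (1 : ℝ) ≤ m := by linarith
  have hmN : 1 ≤ m := by exact_mod_cast hm1
  have hD1 : 1 ≤ D := by
    have := Real.add_one_le_exp (4096 : ℝ)
    linarith
  have hlm : (m : ℝ) ≤ Real.log D := by linarith
  obtain ⟨Λ, hΛ⟩ : ∃ Λ, Λ = 40 * (m : ℝ) ^ 2 * Real.log D := ⟨_, rfl⟩
  have hm2 : (1 : ℝ) ≤ (m : ℝ) ^ 2 := by nlinarith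
  have hmlq : (m : ℝ) ≤ (m : ℝ) ^ 2 * Real.log D := by nlinarith
  have h40 : (40 : ℝ) * m ≤ Λ := by rw [hΛ]; linarith
  have hΛ1 : 1 ≤ Λ := by linarith
  obtain ⟨L, hL⟩ : ∃ L, L = D ^ (1 / (8 * (m : ℝ))) := ⟨_, rfl⟩
  have hL1 : 1 ≤ L := by rw [hL]; exact Real.one_le_rpow hD1 (by positivity)
  have hlog : Real.log (120 * √L * Λ) ≤ 2 * Λ := by
    rw [hL, hΛ]
    exact log_bnd D m hmN hD1 hlm
  have hsL : √L = D ^ (1 / (16 * (m : ℝ))) := by rw [hL]; exact sqrt_eq D m hmN hD1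
  have hsL1 : 1 ≤ √L := by rw [Real.one_le_sqrt]; exact hL1
  rw [← hsL]
  rw [← hL] at hσ
  suffices hmain : (T.card : ℝ) ≤ (m : ℝ) ^ 2 + 400000 * √L * Λ ^ 3 by
    refine hmain.trans ?_
    obtain ⟨v, hv⟩ : ∃ v, v = (m : ℝ) ^ 2 * Real.log D := ⟨_, rfl⟩
    have hΛu : Λ = 40 * v := by rw [hΛ, hv]; ring
    rw [← hv, hΛu]
    have hu1 : 1 ≤ v := by rw [hv]; nlinarith
    have h2 : (m : ℝ) ^ 2 ≤ v := by rw [hv]; nlinarith
    have h3 : v ≤ v ^ 3 := by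
      nlinarith [mul_le_mul hu1 hu1 zero_le_one (by linarith : (0:ℝ) ≤ v), sq_nonneg v]
    have hu3 : 0 ≤ v ^ 3 := by positivity
    have h4 : v ^ 3 ≤ √L * v ^ 3 := by nlinarith
    have h5 : 400000 * √L * (40 * v) ^ 3 = 25600000000 * (√L * v ^ 3) := by ring
    rw [h5]
    have h7 : 10 ^ 11 * √L * v ^ 3 = 10 ^ 11 * (√L * v ^ 3) := by ring
    rw [h7]
    linarith
  obtain ⟨R, hR⟩ : ∃ R : ℤ, R = RR (th D m M) M := ⟨_, rfl⟩
  have hR0 : R ≠ 0 := by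
    rw [hR]
    exact_mod_cast (RR_pos _ _).ne'
  obtain ⟨H, hH⟩ : ∃ H, H = D ^ (A + 2) := ⟨_, rfl⟩
  have hH1 : 1 ≤ H := by rw [hH]; exact Real.one_le_rpow hD1 (by linarith)
  -- sizes
  have hxR : ∀ σ ∈ T, |(x σ : ℝ)| ≤ D ^ A ∧ |(y σ : ℝ)| ≤ D ^ A := by
    intro σ hσT
    have e1 : (x σ : ℝ) ^ 2 + ((d₀ + RR (th D m M) M * σ : ℤ) : ℝ) * (y σ : ℝ) ^ 2 = M * n := by
      exact_mod_cast heq σ hσT
    have e2 := hd σ hσT
    have e3 : (1 : ℝ) ≤ D ^ A := Real.one_le_rpow hD1 (by linarith)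
    constructor
    · apply abs_le_of_sq_le_sq _ (by linarith)
      nlinarith [sq_nonneg (y σ : ℝ)]
    · apply abs_le_of_sq_le_sq _ (by linarith)
      nlinarith [sq_nonneg (x σ : ℝ), sq_nonneg (y σ : ℝ)]
  have hLm : L ^ m ≤ D := by
    rw [hL, ← Real.rpow_natCast, ← Real.rpow_mul hD0.le]
    have h1 : 1 / (8 * (m : ℝ)) * m ≤ 1 := by
      rw [div_mul_eq_mul_div, one_mul, div_le_one (by positivity)]
      linarith
    have := Real.rpow_le_rpow_of_exponent_le hD1 h1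
    rwa [Real.rpow_one] at this
  have hτj : ∀ σ ∈ T, ∀ j ≤ m, |(σ : ℝ) ^ j| ≤ D := by
    intro σ hσT j hj
    rw [abs_pow]
    exact ((pow_le_pow_left₀ (abs_nonneg _) (hσ σ hσT) j).trans
      (pow_le_pow_right₀ hL1 hj)).trans hLm
  have hHx : ∀ σ ∈ T, ∀ j < m, |((x σ * σ ^ j : ℤ) : ℝ)| ≤ H ∧ |((y σ * σ ^ j : ℤ) : ℝ)| ≤ H := by
    intro σ hσT j hj
    push_cast
    rw [abs_mul, abs_mul]
    have h1 := mul_le_mul (hxR σ hσT).1 (hτj σ hσT j hj.le) (abs_nonneg _) (by positivity)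
    have h2 := mul_le_mul (hxR σ hσT).2 (hτj σ hσT j hj.le) (abs_nonneg _) (by positivity)
    have h3 : D ^ A * D ≤ H := by
      rw [hH, ← Real.rpow_add_one hD0.ne']
      exact Real.rpow_le_rpow_of_exponent_le hD1 (by linarith)
    exact ⟨h1.trans h3, h2.trans h3⟩
  -- the determinants vanish
  have hdet : ∀ f : Fin m ⊕ Fin m → ℤ, (∀ i, f i ∈ T) →
      (Mat m (fun i => x (f i)) (fun i => y (f i)) f).det = 0 := by
    intro f hf
    exact vanish hD hA hm hml hM hn hN hn2 hND hθ d₀ s u _ _ f hs hu (fun i => heq _ (hf i))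
      (fun i => hcop _ (hf i)) (fun i => hxy _ (hf i)) (fun i => hd _ (hf i))
      (fun i => by rw [← hL]; exact hσ _ (hf i))
  obtain ⟨T', hT'T, hT'c, P, Q, hAB, hAd, hBd, hAc, hBc, hcp, hrel⟩ :=
    hMIN m hmN T x y H hH1 hHx hdet
  have hT'c' : ((T \ T').card : ℝ) ≤ (m : ℝ) ^ 2 := by exact_mod_cast hT'c
  have hcard : (T.card : ℝ) ≤ T'.card + (m : ℝ) ^ 2 := by
    have h1 := Finset.card_sdiff_add_card_eq_card hT'T
    have h2 : (T.card : ℝ) = ((T \ T').card : ℝ) + T'.card := by exact_mod_cast h1.symm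
    linarith
  -- the points
  have hg : ∀ σ ∈ T', ∃ g : ℤ, P.eval σ = y σ * g ∧ Q.eval σ = - x σ * g := by
    intro σ hσT
    have h1 := hrel σ hσT
    have h2 : y σ ∣ x σ * P.eval σ := ⟨-Q.eval σ, by linear_combination h1⟩
    obtain ⟨g, hg⟩ := (hxy1 σ (hT'T hσT)).symm.dvd_of_dvd_mul_left h2
    have hy0 : y σ ≠ 0 := by
      have := hy1 σ (hT'T hσT)
      omega
    refine ⟨g, hg, ?_⟩
    apply mul_left_cancel₀ hy0
    rw [hg] at h1
    linear_combination h1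
  have hNS : NonSq (C ((M * n : ℕ) : ℤ) * (Q ^ 2 - (C (-d₀) + C (-R) * X) * P ^ 2)) :=
    nsqL P Q (-R) (-d₀) _ (neg_ne_zero.2 hR0) hcp hsq
  have hdeg : (C ((M * n : ℕ) : ℤ) * (Q ^ 2 - (C (-d₀) + C (-R) * X) * P ^ 2)).natDegree ≤ 2 * m :=
    (Polynomial.natDegree_C_mul_le _ _).trans (deg_L P Q _ _ m hAd hBd)
  have h1 := hCUQ _ (2 * m) hdeg hNS L Λ hL1 hΛ1
      (by push_cast; linarith) T' (fun σ hσT => hσ σ (hT'T hσT)) (fun σ hσT => by
        obtain ⟨g, hgA, hgB⟩ := hg σ hσT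
        refine ⟨((M * n : ℕ) : ℤ) * g, ?_, ?_⟩
        · rw [Polynomial.eval_mul, Polynomial.eval_C, Polynomial.eval_sub, Polynomial.eval_mul,
            Polynomial.eval_pow, Polynomial.eval_pow,
            Polynomial.eval_add, Polynomial.eval_mul, Polynomial.eval_C, Polynomial.eval_C,
            Polynomial.eval_X, hgA, hgB]
          have e1 := heq σ (hT'T hσT)
          rw [← hR] at e1
          push_cast
          linear_combination (-(M : ℤ) * n * g ^ 2) * e1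
        · have h2 := val_bnd P m _ L σ hAd hAc hL1 (hσ σ (hT'T hσT))
          have h3 : |(g : ℝ)| ≤ |((P.eval σ : ℤ) : ℝ)| := by
            rw [hgA]
            push_cast
            rw [abs_mul]
            have hyy := hy1 σ (hT'T hσT)
            have h4 : (1 : ℝ) ≤ |(y σ : ℝ)| := by
              rw [abs_of_nonneg (by exact_mod_cast (by omega : (0 : ℤ) ≤ y σ))]
              exact_mod_cast hyy
            nlinarith [abs_nonneg (g : ℝ)]
          push_cast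
          rw [abs_mul, abs_of_nonneg (by positivity : (0 : ℝ) ≤ (M : ℝ) * n)]
          refine le_trans (mul_le_mul hN (h3.trans h2) (abs_nonneg _) (by positivity)) ?_
          rw [hΛ, hL, hH]
          exact size_bnd hD hA hm hml)
  have h2 : 200000 * √L * Λ ^ 2 * Real.log (120 * √L * Λ) ≤ 200000 * √L * Λ ^ 2 * (2 * Λ) :=
    mul_le_mul_of_nonneg_left hlog (by positivity)
  have h4 : 200000 * √L * Λ ^ 2 * (2 * Λ) = 400000 * √L * Λ ^ 3 := by ring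
  rw [h4] at h2
  linarith

end Pool.Agent.U916.GQ
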