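import Pool.Agent.U916.GQ.Van

/-!
# The size of the determinant and the moduli
-/

set_option autoImplicit false

namespace Pool.Agent.U916.GQ

open Pool.Agent.W223.HZ

theorem det_le (m : ℕ) (x y σ : Fin m ⊕ Fin m → ℤ) {Xb Yb L : ℝ} (hX0 : 0 ≤ Xb) (hY0 : 0 ≤ Yb)
    (hx : ∀ i, |(x i : ℝ)| ≤ Xb) (hy : ∀ i, |(y i : ℝ)| ≤ Yb) (hσ : ∀ i, |(σ i : ℝ)| ≤ L) :
    |((Mat m x y σ).det : ℝ)| ≤ ((2 * m).factorial : ℝ) * ((Xb * Yb) ^ m * L ^ (m * (m - 1))) := by
  classical
  rw [Matrix.det_apply']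
  push_cast
  refine (Finset.abs_sum_le_sum_abs _ _).trans ?_
  obtain ⟨b, hb⟩ : ∃ b : Fin m ⊕ Fin m → ℝ, b = Sum.elim (fun j : Fin m => Xb * L ^ (j : ℕ))
    (fun j : Fin m => Yb * L ^ (j : ℕ)) := ⟨_, rfl⟩
  have hent : ∀ i c, |((Mat m x y σ i c : ℤ) : ℝ)| ≤ b c := by
    intro i c
    rw [hb]
    rcases c with j | j
    · simp only [Mat, Matrix.of_apply, Sum.elim_inl]
      push_cast
      rw [abs_mul, abs_pow]
      exact mul_le_mul (hx i) (pow_le_pow_left₀ (abs_nonneg _) (hσ i) _) (by positivity) hX0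
    · simp only [Mat, Matrix.of_apply, Sum.elim_inr]
      push_cast
      rw [abs_mul, abs_pow]
      exact mul_le_mul (hy i) (pow_le_pow_left₀ (abs_nonneg _) (hσ i) _) (by positivity) hY0
  have hterm : ∀ p ∈ (Finset.univ : Finset (Equiv.Perm (Fin m ⊕ Fin m))),
      |((Equiv.Perm.sign p : ℤ) : ℝ) * ∏ i, ((Mat m x y σ (p i) i : ℤ) : ℝ)| ≤ ∏ c, b c := by
    intro p _
    rw [abs_mul, Finset.abs_prod]
    have h1 : |((Equiv.Perm.sign p : ℤ) : ℝ)| = 1 := by
      rcases Int.units_eq_one_or (Equiv.Perm.sign p) with h | h <;> simp [h]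
    rw [h1, one_mul]
    exact Finset.prod_le_prod (fun i _ => abs_nonneg _) (fun i _ => hent (p i) i)
  refine (Finset.sum_le_sum hterm).trans ?_
  rw [Finset.sum_const, Finset.card_univ, Fintype.card_perm, Fintype.card_sum, Fintype.card_fin,
    nsmul_eq_mul, ← two_mul]
  apply le_of_eq
  congr 1
  rw [Fintype.prod_sum_type, hb]
  simp only [Sum.elim_inl, Sum.elim_inr]
  rw [Finset.prod_mul_distrib, Finset.prod_mul_distrib, Finset.prod_const, Finset.prod_const,
    Finset.card_univ, Fintype.card_fin, Finset.prod_pow_eq_pow_sum]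
  have h2 : (∑ i : Fin m, (i : ℕ)) * 2 = m * (m - 1) := by
    rw [Fin.sum_univ_eq_sum_range (fun i => i) m]
    exact Finset.sum_range_id_mul_two m
  have h3 : L ^ (m * (m - 1)) = L ^ (∑ i : Fin m, (i : ℕ)) * L ^ (∑ i : Fin m, (i : ℕ)) := by
    rw [← pow_add, ← h2]
    congr 1
    ring
  rw [h3, mul_pow]
  ring

/-- the modulus -/
noncomputable def RR (θ : ℝ) (M : ℕ) : ℕ := ∏ q ∈ M.primeFactors, q ^ ⌈θ * M.factorization q⌉₊

/-- the radical -/
def rad (M : ℕ) : ℕ := ∏ q ∈ M.primeFactors, q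

lemma rad_pos (M : ℕ) : 0 < rad M :=
  Finset.prod_pos fun _ hq => (Nat.prime_of_mem_primeFactors hq).pos

lemma RR_pos (θ : ℝ) (M : ℕ) : 0 < RR θ M :=
  Finset.prod_pos fun _ hq => pow_pos (Nat.prime_of_mem_primeFactors hq).pos _

lemma rad_dvd_RR {θ : ℝ} (hθ : 0 < θ) (M : ℕ) : rad M ∣ RR θ M := by
  apply Finset.prod_dvd_prod_of_dvd
  intro q hq
  apply dvd_pow_self
  have h1 := Nat.prime_of_mem_primeFactors hq
  have h2 : 0 < M.factorization q := h1.factorization_pos_of_dvd (by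
    rintro rfl
    simp at hq) (Nat.dvd_of_mem_primeFactors hq)
  have h3 : 0 < θ * M.factorization q := mul_pos hθ (by exact_mod_cast h2)
  exact (Nat.ceil_pos.2 h3).ne'

lemma dvd_rad_pow {M : ℕ} (hM : M ≠ 0) : M ∣ rad M ^ (M + 1) := by
  conv_lhs => rw [← Nat.prod_factorization_pow_eq_self hM]
  rw [Finsupp.prod, Nat.support_factorization, rad, ← Finset.prod_pow]
  apply Finset.prod_dvd_prod_of_dvd
  intro q _
  apply pow_dvd_pow
  have := Nat.factorization_lt q hM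
  omega

lemma eq_prod_real {M : ℕ} (hM : M ≠ 0) : (M : ℝ) = ∏ q ∈ M.primeFactors, (q : ℝ) ^ (M.factorization q) := by
  conv_lhs => rw [← Nat.prod_factorization_pow_eq_self hM]
  rw [Finsupp.prod, Nat.support_factorization]
  push_cast
  rfl

lemma rpow_eq_prod {M : ℕ} (hM : M ≠ 0) (t : ℝ) :
    (M : ℝ) ^ t = ∏ q ∈ M.primeFactors, (q : ℝ) ^ ((M.factorization q : ℝ) * t) := by
  conv_lhs => rw [eq_prod_real hM]
  rw [← Real.finsetProd_rpow _ _ (fun q _ => by positivity)]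
  apply Finset.prod_congr rfl
  intro q _
  rw [Real.rpow_mul (Nat.cast_nonneg q), Real.rpow_natCast]

lemma RR_le {θ : ℝ} (hθ : 0 ≤ θ) {M : ℕ} (hM : M ≠ 0) : (RR θ M : ℝ) ≤ (M : ℝ) ^ θ * rad M := by
  rw [rpow_eq_prod hM, RR, rad]
  push_cast
  rw [← Finset.prod_mul_distrib]
  apply Finset.prod_le_prod
  · intro q _
    positivity
  · intro q hq
    have hq1 : (1 : ℝ) ≤ q := by exact_mod_cast (Nat.prime_of_mem_primeFactors hq).one_le
    have hq0 : (0 : ℝ) < q := by linarith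
    rw [← Real.rpow_natCast, ← Real.rpow_add_one hq0.ne']
    apply Real.rpow_le_rpow_of_exponent_le hq1
    have := Nat.ceil_lt_add_one (show 0 ≤ θ * (M.factorization q : ℝ) by positivity)
    linarith

lemma le_RR {θ : ℝ} {M : ℕ} (hM : M ≠ 0) : (M : ℝ) ^ θ ≤ (RR θ M : ℝ) := by
  rw [rpow_eq_prod hM, RR]
  push_cast
  apply Finset.prod_le_prod
  · intro q _
    positivity
  · intro q hq
    have hq1 : (1 : ℝ) ≤ q := by exact_mod_cast (Nat.prime_of_mem_primeFactors hq).one_le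
    rw [← Real.rpow_natCast]
    apply Real.rpow_le_rpow_of_exponent_le hq1
    have := Nat.le_ceil (θ * (M.factorization q : ℝ))
    linarith

lemma le_gcd {θ : ℝ} {M : ℕ} (hM : M ≠ 0) (l : ℕ) :
    (M : ℝ) ^ (min 1 (l * θ)) ≤ (Nat.gcd M (RR θ M ^ l) : ℝ) := by
  have h1 : ∏ q ∈ M.primeFactors, q ^ (min (M.factorization q) (l * ⌈θ * M.factorization q⌉₊)) ∣
      Nat.gcd M (RR θ M ^ l) := by
    apply Nat.dvd_gcd
    · conv_rhs => rw [← Nat.prod_factorization_pow_eq_self hM]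
      rw [Finsupp.prod, Nat.support_factorization]
      apply Finset.prod_dvd_prod_of_dvd
      intro q _
      exact pow_dvd_pow _ (min_le_left _ _)
    · rw [RR, ← Finset.prod_pow]
      apply Finset.prod_dvd_prod_of_dvd
      intro q _
      rw [← pow_mul]
      apply pow_dvd_pow
      rw [mul_comm _ l]
      exact min_le_right _ _
  have h2 : 0 < Nat.gcd M (RR θ M ^ l) := Nat.gcd_pos_of_pos_left _ (Nat.pos_of_ne_zero hM)
  have h3 := Nat.le_of_dvd h2 h1
  have h4 : ((∏ q ∈ M.primeFactors, q ^ (min (M.factorization q) (l * ⌈θ * M.factorization q⌉₊)) : ℕ) : ℝ) ≤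
    (Nat.gcd M (RR θ M ^ l) : ℝ) := by exact_mod_cast h3
  refine le_trans ?_ h4
  rw [rpow_eq_prod hM]
  push_cast
  apply Finset.prod_le_prod
  · intro q _
    positivity
  · intro q hq
    have hq1 : (1 : ℝ) ≤ q := by exact_mod_cast (Nat.prime_of_mem_primeFactors hq).one_le
    rw [← Real.rpow_natCast]
    apply Real.rpow_le_rpow_of_exponent_le hq1
    push_cast
    have hv : (0 : ℝ) ≤ M.factorization q := Nat.cast_nonneg _
    apply le_min
    · calc (M.factorization q : ℝ) * min 1 (l * θ) ≤ (M.factorization q : ℝ) * 1 :=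
            mul_le_mul_of_nonneg_left (min_le_left _ _) hv
        _ = _ := mul_one _
    · calc (M.factorization q : ℝ) * min 1 (l * θ) ≤ (M.factorization q : ℝ) * (l * θ) :=
            mul_le_mul_of_nonneg_left (min_le_right _ _) hv
        _ = l * (θ * M.factorization q) := by ring
        _ ≤ _ := mul_le_mul_of_nonneg_left (Nat.le_ceil _) (Nat.cast_nonneg _)

/-- `∑_{1 ≤ t ≤ m} min 1 (t θ) ≥ m - 1 / (2 θ)` -/
lemma sum_min {θ : ℝ} (hθ : 0 < θ) (m : ℕ) :
    (m : ℝ) - 1 / (2 * θ) ≤ ∑ j : Fin m, min 1 (((m - (j : ℕ) : ℕ) : ℝ) * θ) := by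
  have h1 : ∑ j : Fin m, min 1 (((m - (j : ℕ) : ℕ) : ℝ) * θ) =
      ∑ t ∈ Finset.range m, min 1 (((t + 1 : ℕ) : ℝ) * θ) := by
    rw [Fin.sum_univ_eq_sum_range (fun j => min 1 (((m - j : ℕ) : ℝ) * θ)) m]
    rw [← Finset.sum_range_reflect]
    apply Finset.sum_congr rfl
    intro t ht
    rw [Finset.mem_range] at ht
    have : m - (m - 1 - t) = t + 1 := by omega
    rw [this]
  rw [h1]
  have h2 : ∀ n : ℕ, (n : ℝ) - (1 - (max 0 (1 - n * θ)) ^ 2) / (2 * θ) ≤
      ∑ t ∈ Finset.range n, min 1 (((t + 1 : ℕ) : ℝ) * θ) := by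
    intro n
    induction n with
    | zero => simp
    | succ n ih =>
      rw [Finset.sum_range_succ]
      have h3 : ((n : ℝ) + 1) - (1 - (max 0 (1 - ((n : ℝ) + 1) * θ)) ^ 2) / (2 * θ) ≤
          ((n : ℝ) - (1 - (max 0 (1 - n * θ)) ^ 2) / (2 * θ)) + min 1 (((n : ℝ) + 1) * θ) := by
        rcases le_total (1 - ((n : ℝ) + 1) * θ) 0 with h | h
        · have hmin : min 1 (((n : ℝ) + 1) * θ) = 1 := min_eq_left (by linarith)
          rw [max_eq_left h, hmin]
          have : 0 ≤ (max 0 (1 - (n : ℝ) * θ)) ^ 2 / (2 * θ) := by positivity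
          have e : (1 - (max 0 (1 - (n : ℝ) * θ)) ^ 2) / (2 * θ) =
              1 / (2 * θ) - (max 0 (1 - (n : ℝ) * θ)) ^ 2 / (2 * θ) := by ring
          rw [e]
          have e2 : (1 - (0 : ℝ) ^ 2) / (2 * θ) = 1 / (2 * θ) := by norm_num
          rw [e2]
          linarith
        · have hn : 0 ≤ 1 - (n : ℝ) * θ := by nlinarith
          rw [max_eq_right h, max_eq_right hn, min_eq_right (by linarith)]
          have e : (1 - (1 - (n : ℝ) * θ) ^ 2) / (2 * θ) = n - n ^ 2 * θ / 2 := by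
            field_simp
            ring
          have e2 : (1 - (1 - ((n : ℝ) + 1) * θ) ^ 2) / (2 * θ) = (n + 1) - (n + 1) ^ 2 * θ / 2 := by
            field_simp
            ring
          rw [e, e2]
          nlinarith
      push_cast at ih ⊢
      linarith
  refine le_trans ?_ (h2 m)
  have : 0 ≤ (max 0 (1 - (m : ℝ) * θ)) ^ 2 / (2 * θ) := by positivity
  have e : (1 - (max 0 (1 - (m : ℝ) * θ)) ^ 2) / (2 * θ) =
      1 / (2 * θ) - (max 0 (1 - (m : ℝ) * θ)) ^ 2 / (2 * θ) := by ring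
  rw [e]
  linarith

end Pool.Agent.U916.GQ
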