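import Pool.Agent.U916.GQ.Fin
import Pool.Agent.Y486.FK.Amb1
import Pool.Agent.Y797.FK.Disc
import Pool.Agent.Q210.PL.B1

/-!
# The torsion of even order
-/

set_option autoImplicit false

namespace Pool.Agent.U916.GQ

open NumberField Finset
open scoped nonZeroDivisors

/-- genus theory: the classes of order at most two of an imaginary quadratic field -/
theorem two_le (K : Type) [Field K] [NumberField K] (hK : Module.finrank ℚ K = 2) (hD : discr K < 0) :
    Nat.card {c : ClassGroup (𝓞 K) // c ^ 2 = 1} ≤ (discr K).natAbs.divisors.card := by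
  classical
  obtain ⟨n, hn, hs⟩ := Pool.Agent.Y797.FK.t_DISC.2.1 K hK hD
  have hd := Pool.Agent.Y797.FK.t_DISC.1 K hK n hn hs
  obtain ⟨-, h2⟩ := Pool.Agent.Y486.FK.t_AMB1 K hK n hn hs
  have hR : Pool.Agent.Y755.FK.Rn n ∣ (discr K).natAbs := by
    rw [hd, Pool.Agent.Y755.FK.Rn]
    by_cases h3 : n % 4 = 3
    · rw [if_pos h3, if_neg (by omega), Int.natAbs_neg, Int.natAbs_natCast]
    · rw [if_neg h3, Int.natAbs_neg]
      have e : (4 * (n : ℤ)).natAbs = 4 * n := by omega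
      rw [e]
      split_ifs
      · exact ⟨2, by ring⟩
      · exact Dvd.intro_left 4 rfl
  have hR0 : (discr K).natAbs ≠ 0 := by
    rw [Ne, Int.natAbs_eq_zero]
    exact hD.ne
  have hex : ∀ c : {c : ClassGroup (𝓞 K) // c ^ 2 = 1}, ∃ (b : ℕ) (I : (Ideal (𝓞 K))⁰),
      b ∣ Pool.Agent.Y755.FK.Rn n ∧ (I : Ideal (𝓞 K)) ^ 2 = Ideal.span {((b : ℕ) : 𝓞 K)} ∧
        ClassGroup.mk0 I = c.1 := by
    intro c
    obtain ⟨b, hb, I, h3, h4⟩ := h2 c.1 c.2
    exact ⟨b, I, hb, h3, h4⟩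
  choose b I hb hI hIc using hex
  have hinj : Function.Injective (fun c : {c : ClassGroup (𝓞 K) // c ^ 2 = 1} =>
      (⟨b c, Nat.mem_divisors.2 ⟨(hb c).trans hR, hR0⟩⟩ : {x // x ∈ (discr K).natAbs.divisors})) := by
    intro c c' h
    have h3 : b c = b c' := congrArg Subtype.val h
    apply Subtype.ext
    rw [← hIc c, ← hIc c']
    congr 1
    apply Subtype.ext
    have h4 : ((I c : Ideal (𝓞 K)) ^ 2) = (I c' : Ideal (𝓞 K)) ^ 2 := by
      rw [hI, hI, h3]
    exact pow_left_injective two_ne_zero h4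
  have h3 := Nat.card_le_card_of_injective _ hinj
  rwa [Nat.card_eq_fintype_card (α := {x // x ∈ (discr K).natAbs.divisors}), Fintype.card_coe] at h3

lemma dbl {G : Type*} [CommGroup G] [Finite G] (l : ℕ) :
    Nat.card {g : G // g ^ (2 * l) = 1} ≤ Nat.card {g : G // g ^ 2 = 1} * Nat.card {g : G // g ^ l = 1} := by
  classical
  rw [← Nat.card_prod]
  -- a choice of the preimages
  have hex : ∀ t : G, ∃ s : G, (∃ g : G, g ^ l = t) → s ^ l = t := by
    intro t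
    by_cases h : ∃ g : G, g ^ l = t
    · obtain ⟨g, hg⟩ := h
      exact ⟨g, fun _ => hg⟩
    · exact ⟨1, fun h' => absurd h' h⟩
  choose s hs using hex
  have h1 : ∀ g : {g : G // g ^ (2 * l) = 1}, (g.1 ^ l) ^ 2 = 1 := by
    intro g
    rw [← pow_mul, mul_comm l 2]
    exact g.2
  have h2 : ∀ g : {g : G // g ^ (2 * l) = 1}, (g.1 * (s (g.1 ^ l))⁻¹) ^ l = 1 := by
    intro g
    rw [mul_pow, inv_pow, hs (g.1 ^ l) ⟨g.1, rfl⟩, mul_inv_cancel]
  apply Nat.card_le_card_of_injective (fun g : {g : G // g ^ (2 * l) = 1} =>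
    ((⟨g.1 ^ l, h1 g⟩, ⟨g.1 * (s (g.1 ^ l))⁻¹, h2 g⟩) :
      {g : G // g ^ 2 = 1} × {g : G // g ^ l = 1}))
  intro g g' h
  have e1 : g.1 ^ l = g'.1 ^ l := congrArg (fun x => x.1.1) h
  have e2 : g.1 * (s (g.1 ^ l))⁻¹ = g'.1 * (s (g'.1 ^ l))⁻¹ := congrArg (fun x => x.2.1) h
  rw [e1] at e2
  exact Subtype.ext (mul_right_cancel e2)

lemma dbl_pow {G : Type*} [CommGroup G] [Finite G] (k l : ℕ) :
    Nat.card {g : G // g ^ (2 ^ k * l) = 1} ≤
      Nat.card {g : G // g ^ 2 = 1} ^ k * Nat.card {g : G // g ^ l = 1} := by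
  induction k with
  | zero => simp
  | succ k ih =>
    have h1 := dbl (G := G) (2 ^ k * l)
    have e : 2 * (2 ^ k * l) = 2 ^ (k + 1) * l := by ring
    rw [e] at h1
    refine h1.trans ?_
    rw [pow_succ']
    calc Nat.card {g : G // g ^ 2 = 1} * Nat.card {g : G // g ^ (2 ^ k * l) = 1} ≤
        Nat.card {g : G // g ^ 2 = 1} *
          (Nat.card {g : G // g ^ 2 = 1} ^ k * Nat.card {g : G // g ^ l = 1}) :=
          Nat.mul_le_mul_left _ ih
      _ = _ := by ring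

/-- few integers have many divisors -/
lemma card_tau {X V : ℝ} (hX : 1 ≤ X) (hV : 0 < V) (F : Finset ℕ) (hF : ∀ d ∈ F, d ≠ 0 ∧ (d : ℝ) ≤ 2 * X ∧
    V < d.divisors.card) : (F.card : ℝ) ≤ 2 * X * (1 + Real.log (2 * X)) / V := by
  rw [le_div_iff₀ hV]
  obtain ⟨N, hN⟩ : ∃ N : ℕ, N = ⌊2 * X⌋₊ := ⟨_, rfl⟩
  have hN1 : 1 ≤ N := by
    rw [hN]
    apply Nat.le_floor
    push_cast
    linarith
  have hNX : (N : ℝ) ≤ 2 * X := by rw [hN]; exact Nat.floor_le (by linarith)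
  have h1 : F ⊆ Finset.Icc 1 N := by
    intro d hd
    obtain ⟨h0, h2, -⟩ := hF d hd
    rw [Finset.mem_Icc]
    exact ⟨Nat.one_le_iff_ne_zero.2 h0, by rw [hN]; exact Nat.le_floor h2⟩
  calc (F.card : ℝ) * V = ∑ _d ∈ F, V := by rw [Finset.sum_const, nsmul_eq_mul]
    _ ≤ ∑ d ∈ F, (d.divisors.card : ℝ) := Finset.sum_le_sum fun d hd => (hF d hd).2.2.le
    _ ≤ ∑ d ∈ Finset.Icc 1 N, (d.divisors.card : ℝ) :=
        Finset.sum_le_sum_of_subset_of_nonneg h1 fun d _ _ => Nat.cast_nonneg _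
    _ ≤ N * (1 + Real.log N) := Pool.Agent.Q210.PL.B1.sum_divisors_card_le N
    _ ≤ 2 * X * (1 + Real.log (2 * X)) := by
        have hN0 : (0 : ℝ) < N := by exact_mod_cast hN1
        apply mul_le_mul hNX _ _ (by linarith)
        · have := Real.log_le_log hN0 hNX
          linarith
        · have : 0 ≤ Real.log (N : ℝ) := Real.log_nonneg (by exact_mod_cast hN1)
          linarith

end Pool.Agent.U916.GQ
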