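import Pool.Agent.U916.GQ.Cnt

/-!
# The union over the norms
-/

set_option autoImplicit false

namespace Pool.Agent.U916.GQ

/-- `x ^ 2 + d y ^ 2` takes a non-square value `M n ≤ Z` at coprime integers `x`, `y ≥ 1`, where `M` is odd
and prime to `d`, `n ≤ B` and the product of `q t` over the prime factors `q` of `M` is at most `B`. -/
def ExcQ (d : ℤ) (Z B t : ℝ) : Prop := ∃ M n : ℕ, M ≠ 0 ∧ Odd M ∧ n ≠ 0 ∧ (M : ℝ) * n ≤ Z ∧ (n : ℝ) ≤ B ∧
  ∏ q ∈ M.primeFactors, ((q : ℝ) * t) ≤ B ∧ ¬ IsSquare ((M * n : ℕ) : ℤ) ∧ Rep M n d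

lemma prod_qt (M : ℕ) (t : ℝ) : ∏ q ∈ M.primeFactors, ((q : ℝ) * t) = (rad M : ℝ) * t ^ M.primeFactors.card := by
  rw [Finset.prod_mul_distrib, Finset.prod_const, rad]
  push_cast
  rfl

lemma rad_primeFactors (M : ℕ) : (rad M).primeFactors = M.primeFactors :=
  Nat.primeFactors_prod fun _ hp => Nat.prime_of_mem_primeFactors hp

/-- the number of the `M` with a given radical -/
lemma card_rad {D A B : ℝ} (hD : Real.exp 4096 ≤ D) (hA : 1 ≤ A) (hAl : 3 * A ≤ Real.log D) (P : ℕ)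
    (F : Finset ℕ) (hF : ∀ M ∈ F, M ≠ 0 ∧ (M : ℝ) ≤ D ^ A ∧ rad M = P ∧
      ∏ q ∈ M.primeFactors, ((q : ℝ) * Real.log D) ≤ B) : (F.card : ℝ) ≤ B ^ 2 := by
  classical
  have hD0 : 0 < D := (Real.exp_pos _).trans_le hD
  obtain ⟨l, hl⟩ : ∃ l, l = Real.log D := ⟨_, rfl⟩
  rw [← hl] at hAl hF
  have hl0 : 4096 ≤ l := by
    rw [hl, Real.le_log_iff_exp_le hD0]
    exact hD
  rcases F.eq_empty_or_nonempty with h0 | ⟨M₀, hM₀⟩
  · rw [h0]
    simp only [Finset.card_empty, Nat.cast_zero]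
    positivity
  obtain ⟨K, hK⟩ : ∃ K : ℕ, K = ⌊2 * A * l⌋₊ := ⟨_, rfl⟩
  have hpf : ∀ M ∈ F, M.primeFactors = P.primeFactors := by
    intro M hM
    rw [← (hF M hM).2.2.1, rad_primeFactors]
  have hcard : F.card ≤ (P.primeFactors.pi (fun _ => Finset.range (K + 1))).card := by
    apply Finset.card_le_card_of_injOn (fun M => fun q _ => M.factorization q)
    · intro M hM
      have hM' : M ∈ F := hM
      rw [Finset.mem_coe, Finset.mem_pi]
      intro q hq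
      rw [← hpf M hM'] at hq
      rw [Finset.mem_range, Nat.lt_succ_iff, hK]
      apply Nat.le_floor
      have hqp := Nat.prime_of_mem_primeFactors hq
      have e1 : 2 ^ M.factorization q ≤ M := by
        have := Nat.ordProj_dvd M q
        have h2 := Nat.le_of_dvd (Nat.pos_of_ne_zero (hF M hM').1) this
        exact (Nat.pow_le_pow_left hqp.two_le _).trans h2
      have e2 : (2 : ℝ) ^ M.factorization q ≤ D ^ A := by
        have : (2 : ℝ) ^ M.factorization q ≤ M := by exact_mod_cast e1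
        exact this.trans (hF M hM').2.1
      have e3 := Real.log_le_log (by positivity) e2
      rw [Real.log_pow, Real.log_rpow hD0, ← hl] at e3
      have e4 : (1 : ℝ) / 2 ≤ Real.log 2 := by
        have := Real.log_two_gt_d9
        linarith
      have e5 : (M.factorization q : ℝ) * (1 / 2) ≤ M.factorization q * Real.log 2 :=
        mul_le_mul_of_nonneg_left e4 (Nat.cast_nonneg _)
      linarith
    · intro M hM M' hM' h
      have hM1 : M ∈ F := hM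
      have hM2 : M' ∈ F := hM'
      apply Nat.eq_of_factorization_eq (hF M hM1).1 (hF M' hM2).1
      intro q
      by_cases hq : q ∈ P.primeFactors
      · have := congrFun (congrFun h q) hq
        exact this
      · have h1 : q ∉ M.primeFactors := by rw [hpf M hM1]; exact hq
        have h2 : q ∉ M'.primeFactors := by rw [hpf M' hM2]; exact hq
        rw [← Nat.support_factorization, Finsupp.notMem_support_iff] at h1 h2
        rw [h1, h2]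
  rw [Finset.card_pi, Finset.prod_const, Finset.card_range] at hcard
  have h1 : (F.card : ℝ) ≤ ((K : ℝ) + 1) ^ P.primeFactors.card := by exact_mod_cast hcard
  have h2 : (K : ℝ) + 1 ≤ l ^ 2 := by
    have : (K : ℝ) ≤ 2 * A * l := by rw [hK]; exact Nat.floor_le (by positivity)
    nlinarith
  have h3 : l ^ P.primeFactors.card ≤ B := by
    have e1 := (hF M₀ hM₀).2.2.2
    rw [prod_qt, hpf M₀ hM₀] at e1
    have e2 : (1 : ℝ) ≤ rad M₀ := by exact_mod_cast rad_pos M₀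
    have e3 : 0 < l ^ P.primeFactors.card := by positivity
    nlinarith
  calc (F.card : ℝ) ≤ ((K : ℝ) + 1) ^ P.primeFactors.card := h1
    _ ≤ (l ^ 2) ^ P.primeFactors.card := pow_le_pow_left₀ (by positivity) h2 _
    _ = (l ^ P.primeFactors.card) ^ 2 := by rw [← pow_mul, ← pow_mul, mul_comm]
    _ ≤ B ^ 2 := pow_le_pow_left₀ (by positivity) h3 2

/-- **the number of the exceptional radicands in `(D, 2 D]`** -/
theorem countq {D A B : ℝ} {m : ℕ} (hD : Real.exp 4096 ≤ D) (hA : 1 ≤ A) (hm : 3 * A ^ 2 ≤ m)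
    (hml : 2 * (m : ℝ) ≤ Real.log D) (hB0 : 0 ≤ B) (hB : B ≤ D ^ ((1 : ℝ) / 16)) :
    ({d : ℤ | D < d ∧ (d : ℝ) ≤ 2 * D ∧ ExcQ d (D ^ A) B (Real.log D)}.ncard : ℝ) ≤
      B ^ 6 * (D ^ (1 - 1 / (8 * (m : ℝ))) *
        (10 ^ 11 * D ^ (1 / (16 * (m : ℝ))) * ((m : ℝ) ^ 2 * Real.log D) ^ 3)) := by
  classical
  have hD0 : 0 < D := (Real.exp_pos _).trans_le hD
  have hl0 : 4096 ≤ Real.log D := by
    rw [Real.le_log_iff_exp_le hD0]
    exact hD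
  have hAl : 3 * A ≤ Real.log D := by nlinarith
  obtain ⟨W, hW⟩ : ∃ W : ℝ, W = D ^ (1 - 1 / (8 * (m : ℝ))) *
    (10 ^ 11 * D ^ (1 / (16 * (m : ℝ))) * ((m : ℝ) ^ 2 * Real.log D) ^ 3) := ⟨_, rfl⟩
  rw [← hW]
  have hW0 : 0 ≤ W := by
    rw [hW]
    have h1 : 0 ≤ D ^ (1 / (16 * (m : ℝ))) := Real.rpow_nonneg hD0.le _
    have h2 : 0 ≤ D ^ (1 - 1 / (8 * (m : ℝ))) := Real.rpow_nonneg hD0.le _
    positivity
  obtain ⟨G, hG⟩ : ∃ G : Finset ℕ, G = (Finset.range (⌊D ^ A⌋₊ + 1)).filter (fun M : ℕ => M ≠ 0 ∧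
    (M : ℝ) ≤ D ^ A ∧ ∏ q ∈ M.primeFactors, ((q : ℝ) * Real.log D) ≤ B) := ⟨_, rfl⟩
  have hradB : ∀ M ∈ G, (rad M : ℝ) ≤ B := by
    intro M hM
    rw [hG, Finset.mem_filter, prod_qt] at hM
    have e1 : (1 : ℝ) ≤ Real.log D ^ M.primeFactors.card := one_le_pow₀ (by linarith)
    have e2 : (0 : ℝ) < rad M := by exact_mod_cast rad_pos M
    nlinarith [hM.2.2.2]
  have hGcard : (G.card : ℝ) ≤ B ^ 3 := by
    have h1 : G ⊆ (Finset.Icc 1 ⌊B⌋₊).biUnion (fun P => G.filter (fun M => rad M = P)) := by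
      intro M hM
      rw [Finset.mem_biUnion]
      refine ⟨rad M, ?_, ?_⟩
      · rw [Finset.mem_Icc]
        exact ⟨rad_pos M, Nat.le_floor (hradB M hM)⟩
      · rw [Finset.mem_filter]
        exact ⟨hM, rfl⟩
    have h2 : ∀ P ∈ Finset.Icc 1 ⌊B⌋₊, (G.filter (fun M => rad M = P)).card ≤ ⌊B ^ 2⌋₊ := by
      intro P _
      apply Nat.le_floor
      apply card_rad hD hA hAl P
      intro M hM
      rw [Finset.mem_filter, hG, Finset.mem_filter] at hM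
      exact ⟨hM.1.2.1, hM.1.2.2.1, hM.2, hM.1.2.2.2⟩
    have h3 : G.card ≤ ⌊B⌋₊ * ⌊B ^ 2⌋₊ := by
      refine (Finset.card_le_card h1).trans ?_
      refine (Finset.card_biUnion_le_card_mul _ _ _ h2).trans ?_
      rw [Nat.card_Icc, Nat.add_sub_cancel]
    have h4 : (G.card : ℝ) ≤ (⌊B⌋₊ : ℝ) * (⌊B ^ 2⌋₊ : ℝ) := by exact_mod_cast h3
    have h5 : (⌊B⌋₊ : ℝ) ≤ B := Nat.floor_le hB0
    have h6 : (⌊B ^ 2⌋₊ : ℝ) ≤ B ^ 2 := Nat.floor_le (by positivity)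
    calc (G.card : ℝ) ≤ (⌊B⌋₊ : ℝ) * (⌊B ^ 2⌋₊ : ℝ) := h4
      _ ≤ B * B ^ 2 := mul_le_mul h5 h6 (Nat.cast_nonneg _) hB0
      _ = B ^ 3 := by ring
  obtain ⟨J, hJ⟩ : ∃ J : Finset (ℕ × ℕ), J = (G ×ˢ Finset.Icc 1 ⌊B⌋₊).filter (fun c => Odd c.1 ∧
    (c.1 : ℝ) * c.2 ≤ D ^ A ∧ ¬ IsSquare ((c.1 * c.2 : ℕ) : ℤ)) := ⟨_, rfl⟩
  have hfin : ∀ c : ℕ × ℕ, {d : ℤ | D < d ∧ (d : ℝ) ≤ 2 * D ∧ Rep c.1 c.2 d}.Finite := by
    intro c
    refine (Set.finite_Icc ⌈D⌉ ⌊2 * D⌋).subset ?_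
    rintro d ⟨h1, h2, -⟩
    exact ⟨Int.ceil_le.2 h1.le, Int.le_floor.2 h2⟩
  have hcov : {d : ℤ | D < d ∧ (d : ℝ) ≤ 2 * D ∧ ExcQ d (D ^ A) B (Real.log D)} ⊆
      ((J.biUnion fun c => (hfin c).toFinset : Finset ℤ) : Set ℤ) := by
    rintro d ⟨h1, h2, M, n, h3, h4, h5, h6, h7, h8, h9, h10⟩
    rw [Finset.mem_coe, Finset.mem_biUnion]
    refine ⟨(M, n), ?_, ?_⟩
    · have hn1 : 1 ≤ n := Nat.one_le_iff_ne_zero.2 h5
      have hMA : (M : ℝ) ≤ D ^ A := by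
        have : (M : ℝ) * 1 ≤ M * n := mul_le_mul_of_nonneg_left (by exact_mod_cast hn1) (Nat.cast_nonneg _)
        linarith
      rw [hJ, Finset.mem_filter, Finset.mem_product, Finset.mem_Icc, hG, Finset.mem_filter,
        Finset.mem_range, Nat.lt_succ_iff]
      exact ⟨⟨⟨Nat.le_floor hMA, h3, hMA, h8⟩, hn1, Nat.le_floor h7⟩, h4, h6, h9⟩
    · rw [Set.Finite.mem_toFinset]
      exact ⟨h1, h2, h10⟩
  have hone : ∀ c ∈ J, ((hfin c).toFinset).card ≤ ⌊B ^ 2 * W⌋₊ := by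
    intro c hc
    rw [hJ, Finset.mem_filter, Finset.mem_product, Finset.mem_Icc] at hc
    obtain ⟨⟨hcG, hc1, hc2⟩, h4, h6, h9⟩ := hc
    have hcB : (c.2 : ℝ) ≤ B := (Nat.cast_le.2 hc2).trans (Nat.floor_le hB0)
    have hcM : c.1 ≠ 0 := by
      rw [hG, Finset.mem_filter] at hcG
      exact hcG.2.1
    apply Nat.le_floor
    have h1 := one_norm (m := m) hD hA hm hml hcM h4 (by omega) h6 (hcB.trans hB) h9
    rw [Set.ncard_eq_toFinset_card _ (hfin c)] at h1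
    refine h1.trans ?_
    have h2 : (rad c.1 : ℝ) ^ 2 ≤ B ^ 2 := pow_le_pow_left₀ (Nat.cast_nonneg _) (hradB _ hcG) 2
    calc D ^ (1 - 1 / (8 * (m : ℝ))) * (rad c.1 : ℝ) ^ 2 *
        (10 ^ 11 * D ^ (1 / (16 * (m : ℝ))) * ((m : ℝ) ^ 2 * Real.log D) ^ 3) =
        (rad c.1 : ℝ) ^ 2 * W := by rw [hW]; ring
      _ ≤ B ^ 2 * W := mul_le_mul_of_nonneg_right h2 hW0
  have hJc : (J.card : ℝ) ≤ B ^ 4 := by
    have h1 : J.card ≤ G.card * ⌊B⌋₊ := by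
      rw [hJ]
      refine (Finset.card_filter_le _ _).trans ?_
      rw [Finset.card_product, Nat.card_Icc, Nat.add_sub_cancel]
    have h2 : (J.card : ℝ) ≤ (G.card : ℝ) * (⌊B⌋₊ : ℝ) := by exact_mod_cast h1
    calc (J.card : ℝ) ≤ (G.card : ℝ) * (⌊B⌋₊ : ℝ) := h2
      _ ≤ B ^ 3 * B := mul_le_mul hGcard (Nat.floor_le hB0) (Nat.cast_nonneg _) (by positivity)
      _ = B ^ 4 := by ring
  have h1 := Set.ncard_le_ncard hcov (Finset.finite_toSet _)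
  rw [Set.ncard_coe_finset] at h1
  have h2 : (J.biUnion fun c => (hfin c).toFinset).card ≤ J.card * ⌊B ^ 2 * W⌋₊ :=
    Finset.card_biUnion_le_card_mul _ _ _ hone
  have h3 : (({d : ℤ | D < d ∧ (d : ℝ) ≤ 2 * D ∧ ExcQ d (D ^ A) B (Real.log D)}.ncard : ℕ) : ℝ) ≤
      (J.card : ℝ) * (⌊B ^ 2 * W⌋₊ : ℝ) := by exact_mod_cast h1.trans h2
  refine h3.trans ?_
  calc (J.card : ℝ) * (⌊B ^ 2 * W⌋₊ : ℝ) ≤ B ^ 4 * (B ^ 2 * W) :=
        mul_le_mul hJc (Nat.floor_le (by positivity)) (Nat.cast_nonneg _) (by positivity)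
    _ = B ^ 6 * W := by ring

end Pool.Agent.U916.GQ
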